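import Pool.Agent.Lib.MP_ab4ef0_lc.Defs

/-!
An abstract criterion for hyperfiniteness.
-/

namespace Pool.Agent.MPab4ef0

open Set Filter Topology Function

variable {X : Type}

/-- tail equivalence of a function -/
def TailEq (f : X → X) (x y : X) : Prop := ∃ a b : ℕ, f^[a] x = f^[b] y

theorem TailEq.refl (f : X → X) (x : X) : TailEq f x x := ⟨0, 0, rfl⟩

theorem TailEq.symm {f : X → X} {x y : X} (h : TailEq f x y) : TailEq f y x := by
  obtain ⟨a, b, h⟩ := h
  exact ⟨b, a, h.symm⟩

theorem TailEq.trans {f : X → X} {x y z : X} (h : TailEq f x y) (h' : TailEq f y z) :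
    TailEq f x z := by
  obtain ⟨a, b, h⟩ := h
  obtain ⟨c, d, h'⟩ := h'
  refine ⟨c + a, b + d, ?_⟩
  rw [iterate_add_apply, h, ← iterate_add_apply, add_comm c b, iterate_add_apply, h',
    ← iterate_add_apply]

section hitting

variable (f : X → X) (A : ℕ → Set X) (hrec : ∀ x n, ∃ k, f^[k] x ∈ A n)

open Classical in
/-- first hitting point of `A n` along the forward orbit -/
noncomputable def hit (n : ℕ) (x : X) : X := f^[Nat.find (hrec x n)] x

theorem hit_eq_of_notMem {n : ℕ} {x : X} (hx : x ∉ A n) :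
    hit f A hrec n x = hit f A hrec n (f x) := by
  classical
  unfold hit
  have h1 : Nat.find (hrec x n) = Nat.find (hrec (f x) n) + 1 := by
    rw [Nat.find_eq_iff]
    constructor
    · have := Nat.find_spec (hrec (f x) n)
      rw [iterate_succ_apply]
      exact this
    · intro m hm
      cases m with
      | zero => simpa using hx
      | succ m =>
        rw [iterate_succ_apply]
        exact Nat.find_min (hrec (f x) n) (by omega)
  rw [h1, iterate_succ_apply]

theorem hit_iterate {n : ℕ} {x : X} {a : ℕ} (hx : ∀ i < a, f^[i] x ∉ A n) :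
    hit f A hrec n x = hit f A hrec n (f^[a] x) := by
  induction a with
  | zero => rfl
  | succ a ih =>
    rw [ih (fun i hi => hx i (by omega)), iterate_succ_apply']
    exact hit_eq_of_notMem f A hrec (hx a (by omega))

theorem hit_succ (hanti : ∀ n, A (n + 1) ⊆ A n) (n : ℕ) (x : X) :
    hit f A hrec (n + 1) x = hit f A hrec (n + 1) (hit f A hrec n x) := by
  classical
  conv_rhs => rw [hit]
  unfold hit
  apply hit_iterate
  intro i hi hmem
  exact Nat.find_min (hrec x n) hi (hanti n hmem)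

theorem hit_mono (hanti : ∀ n, A (n + 1) ⊆ A n) {n m : ℕ} (hnm : n ≤ m) {x y : X}
    (h : hit f A hrec n x = hit f A hrec n y) : hit f A hrec m x = hit f A hrec m y := by
  induction m, hnm using Nat.le_induction with
  | base => exact h
  | succ m _ ih => rw [hit_succ f A hrec hanti, ih, ← hit_succ f A hrec hanti]

theorem hit_eq_of_tailEq (hanti : ∀ n, A (n + 1) ⊆ A n) (hvan : ∀ x, ∃ n, x ∉ A n)
    {x y : X} (h : TailEq f x y) : ∃ n, hit f A hrec n x = hit f A hrec n y := by
  obtain ⟨a, b, h⟩ := h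
  have key : ∀ (x : X) (a : ℕ), ∃ n, ∀ m ≥ n, ∀ i < a, f^[i] x ∉ A m := by
    intro x a
    induction a with
    | zero => exact ⟨0, by simp⟩
    | succ a ih =>
      obtain ⟨n, hn⟩ := ih
      obtain ⟨n', hn'⟩ := hvan (f^[a] x)
      refine ⟨max n n', fun m hm i hi => ?_⟩
      rcases Nat.lt_succ_iff_lt_or_eq.mp hi with hi | rfl
      · exact hn m (le_trans (le_max_left _ _) hm) i hi
      · intro hmem
        have : A m ⊆ A n' := antitone_nat_of_succ_le hanti (le_trans (le_max_right _ _) hm)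
        exact hn' (this hmem)
  obtain ⟨n, hn⟩ := key x a
  obtain ⟨n', hn'⟩ := key y b
  refine ⟨max n n', ?_⟩
  rw [hit_iterate f A hrec (hn _ (le_max_left _ _)), hit_iterate f A hrec
    (hn' _ (le_max_right _ _)), h]

theorem tailEq_of_hit_eq {n : ℕ} {x y : X} (h : hit f A hrec n x = hit f A hrec n y) :
    TailEq f x y := ⟨_, _, h⟩

end hitting

section hyp

variable [MeasurableSpace X]

theorem measurable_hit {f : X → X} (hf : Measurable f) {A : ℕ → Set X}
    (hA : ∀ n, MeasurableSet (A n)) (hrec : ∀ x n, ∃ k, f^[k] x ∈ A n) (n : ℕ) :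
    Measurable (hit f A hrec n) := by
  classical
  have h1 : Measurable (fun x => Nat.find (hrec x n)) :=
    measurable_find (fun x => hrec x n) (fun k => (hf.iterate k) (hA n))
  have h2 : Measurable (fun p : X × ℕ => f^[p.2] p.1) :=
    measurable_from_prod_countable_left (fun k => hf.iterate k)
  exact h2.comp (measurable_id.prodMk h1)

/-- The abstract criterion: a countable Borel equivalence relation is hyperfinite if it has a
Borel subrelation of finite index of the form tail equivalence of a Borel function with finite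
backward orbits and a vanishing sequence of markers. -/
theorem hyperfinite_of_tail [MeasurableEq X]
    (F : X → X → Prop) (hF : Equivalence F)
    (h : ℕ → X → X) (hh : ∀ n, Measurable (h n)) (h0 : ∀ x, h 0 x = x)
    (hFh : ∀ x y, F x y ↔ ∃ k, h k x = y)
    (f : X → X) (hf : Measurable f)
    (A : ℕ → Set X) (hA : ∀ n, MeasurableSet (A n)) (hanti : ∀ n, A (n + 1) ⊆ A n)
    (hvan : ∀ x, ∃ n, x ∉ A n) (hrec : ∀ x n, ∃ k, f^[k] x ∈ A n)
    (hback : ∀ m, {y | ∃ k, f^[k] y = m}.Finite)
    (hidx : ∀ x, ∃ N, ∀ j, ∃ i ≤ N, TailEq f (h j x) (h i x)) :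
    IsHyperfinite F := by
  classical
  let N : X → ℕ := fun x => Nat.find (hidx x)
  have hNmeas : Measurable N := by
    refine measurable_find hidx (fun k => ?_)
    have : Measurable (fun x : X => ∀ j, ∃ i, i ≤ k ∧ ∃ a b : ℕ, f^[a] (h j x) = f^[b] (h i x)) := by
      refine Measurable.forall fun j => Measurable.exists fun i => Measurable.and (by fun_prop) ?_
      refine Measurable.exists fun a => Measurable.exists fun b => Measurable.eq ?_ ?_
      · exact (hf.iterate a).comp (hh j)
      · exact (hf.iterate b).comp (hh i)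
    exact measurableSet_setOfPred.2 this
  have hN : ∀ x j, ∃ i ≤ N x, TailEq f (h j x) (h i x) := fun x => Nat.find_spec (hidx x)
  let π := hit f A hrec
  have hπ : ∀ n, Measurable (π n) := measurable_hit hf hA hrec
  let R : ℕ → X → X → Prop := fun n x y => F x y ∧
    (∀ i, i ≤ N x → ∃ j, j ≤ N y ∧ π n (h i x) = π n (h j y)) ∧
    (∀ j, j ≤ N y → ∃ i, i ≤ N x ∧ π n (h j y) = π n (h i x))
  refine ⟨R, fun n => ⟨⟨⟨?_, ?_, ?_⟩, ?_⟩, ?_⟩, ?_, ?_⟩
  · exact fun x => ⟨hF.refl x, fun i hi => ⟨i, hi, rfl⟩, fun i hi => ⟨i, hi, rfl⟩⟩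
  · rintro x y ⟨h1, h2, h3⟩
    exact ⟨hF.symm h1, h3, h2⟩
  · rintro x y z ⟨h1, h2, h3⟩ ⟨k1, k2, k3⟩
    refine ⟨hF.trans h1 k1, fun i hi => ?_, fun j hj => ?_⟩
    · obtain ⟨j, hj, hij⟩ := h2 i hi
      obtain ⟨l, hl, hjl⟩ := k2 j hj
      exact ⟨l, hl, hij.trans hjl⟩
    · obtain ⟨l, hl, hjl⟩ := k3 j hj
      obtain ⟨i, hi, hli⟩ := h3 l hl
      exact ⟨i, hi, hjl.trans hli⟩
  · have : Measurable (fun p : X × X => (∃ k, h k p.1 = p.2) ∧
        (∀ i, i ≤ N p.1 → ∃ j, j ≤ N p.2 ∧ π n (h i p.1) = π n (h j p.2)) ∧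
        (∀ j, j ≤ N p.2 → ∃ i, i ≤ N p.1 ∧ π n (h j p.2) = π n (h i p.1))) := by
      have e1 : ∀ i, Measurable (fun p : X × X => π n (h i p.1)) := fun i =>
        ((hπ n).comp (hh i)).comp measurable_fst
      have e2 : ∀ i, Measurable (fun p : X × X => π n (h i p.2)) := fun i =>
        ((hπ n).comp (hh i)).comp measurable_snd
      have l1 : ∀ i, Measurable (fun p : X × X => i ≤ N p.1) := fun i =>
        measurableSet_setOfPred.1 ((hNmeas.comp measurable_fst) (measurableSet_Ici (a := i)))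
      have l2 : ∀ i, Measurable (fun p : X × X => i ≤ N p.2) := fun i =>
        measurableSet_setOfPred.1 ((hNmeas.comp measurable_snd) (measurableSet_Ici (a := i)))
      refine Measurable.and ?_ (Measurable.and ?_ ?_)
      · exact Measurable.exists fun k => Measurable.eq ((hh k).comp measurable_fst) measurable_snd
      · exact Measurable.forall fun i => Measurable.imp (l1 i)
          (Measurable.exists fun j => Measurable.and (l2 j) (Measurable.eq (e1 i) (e2 j)))
      · exact Measurable.forall fun i => Measurable.imp (l2 i)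
          (Measurable.exists fun j => Measurable.and (l1 j) (Measurable.eq (e2 i) (e1 j)))
    have h2 := measurableSet_setOfPred.2 this
    convert h2 using 1
    ext p
    simp only [mem_ofPred_eq, R, hFh]
  · intro x
    have : {y | R n x y} ⊆ ⋃ i ∈ Finset.range (N x + 1), {y | ∃ k, f^[k] y = π n (h i x)} := by
      rintro y ⟨-, -, h3⟩
      obtain ⟨i, hi, e⟩ := h3 0 (Nat.zero_le _)
      rw [h0] at e
      simp only [mem_iUnion]
      exact ⟨i, Finset.mem_range.2 (by omega), _, e⟩
    exact Set.Finite.subset ((Finset.range (N x + 1)).finite_toSet.biUnion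
      (fun i _ => hback _)) this
  · rintro n x y ⟨h1, h2, h3⟩
    refine ⟨h1, fun i hi => ?_, fun j hj => ?_⟩
    · obtain ⟨j, hj, e⟩ := h2 i hi
      exact ⟨j, hj, hit_mono f A hrec hanti (Nat.le_succ n) e⟩
    · obtain ⟨i, hi, e⟩ := h3 j hj
      exact ⟨i, hi, hit_mono f A hrec hanti (Nat.le_succ n) e⟩
  · intro x y
    constructor
    swap
    · rintro ⟨n, hn⟩
      exact hn.1
    intro hxy
    have aux : ∀ x y, F x y → ∃ n, ∀ i, i ≤ N x → ∃ j, j ≤ N y ∧ π n (h i x) = π n (h j y) := by
      intro x y hxy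
      have h1 : ∀ i, ∃ n, ∃ j, j ≤ N y ∧ π n (h i x) = π n (h j y) := by
        intro i
        have h2 : F y (h i x) := hF.trans (hF.symm hxy) ((hFh x (h i x)).2 ⟨i, rfl⟩)
        obtain ⟨k, hk⟩ := (hFh _ _).1 h2
        obtain ⟨j, hj, ht⟩ := hN y k
        rw [hk] at ht
        obtain ⟨n, hn⟩ := hit_eq_of_tailEq f A hrec hanti hvan ht
        exact ⟨n, j, hj, hn⟩
      choose nn jj hjj e using h1
      refine ⟨(Finset.range (N x + 1)).sup nn, fun i hi => ⟨jj i, hjj i, ?_⟩⟩
      refine hit_mono f A hrec hanti ?_ (e i)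
      exact Finset.le_sup (f := nn) (Finset.mem_range.2 (by omega))
    obtain ⟨n1, h1⟩ := aux x y hxy
    obtain ⟨n2, h2⟩ := aux y x (hF.symm hxy)
    refine ⟨max n1 n2, hxy, fun i hi => ?_, fun j hj => ?_⟩
    · obtain ⟨j, hj, e⟩ := h1 i hi
      exact ⟨j, hj, hit_mono f A hrec hanti (le_max_left _ _) e⟩
    · obtain ⟨i, hi, e⟩ := h2 j hj
      exact ⟨i, hi, hit_mono f A hrec hanti (le_max_right _ _) e⟩

end hyp

end Pool.Agent.MPab4ef0
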