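import Pool.Agent.Lib.MP_ab4ef0_lc.Geom

/-!
The Borel map going up in scale, and hyperfiniteness on the infinite normal forms.
-/

namespace Pool.Agent.MPab4ef0

open Set Filter Topology Function

open DiscSet

/-- the condition defining the climbing map -/
def Good (T : Inf) (p q : ℂ) : Prop :=
  p ≠ q ∧ nf T p q ∈ M ∧ 2 ≤ ‖q - p‖ ∧ ‖p‖ ≤ ‖q - p‖ ∧
    ∀ s ∈ T.1, 4 ≤ ‖s‖ → ‖q - p‖ ≤ 2 * ‖s‖

theorem exists_min_point (T : Inf) : ∃ s ∈ T.1, 4 ≤ ‖s‖ ∧ ∀ t ∈ T.1, 4 ≤ ‖t‖ → ‖s‖ ≤ ‖t‖ := by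
  obtain ⟨s0, hs0, hs0'⟩ : ∃ s ∈ T.1, 4 ≤ ‖s‖ := by
    by_contra h
    push Not at h
    apply T.2.2.2
    refine (T.1.finite_inter 4).subset (fun z hz => ⟨hz, ?_⟩)
    rw [mem_closedBall_zero_iff]
    exact (h z hz).le
  have hfin : ({s | s ∈ T.1 ∧ 4 ≤ ‖s‖ ∧ ‖s‖ ≤ ‖s0‖}).Finite := by
    refine (T.1.finite_inter ‖s0‖).subset ?_
    rintro z ⟨hz1, hz2, hz3⟩
    exact ⟨hz1, by rw [mem_closedBall_zero_iff]; exact hz3⟩
  obtain ⟨s, ⟨hs1, hs2, hs3⟩, hs4⟩ := hfin.exists_minimalFor (fun z => ‖z‖) _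
    ⟨s0, hs0, hs0', le_rfl⟩
  refine ⟨s, hs1, hs2, fun t ht ht4 => ?_⟩
  by_contra hlt
  push Not at hlt
  have := hs4 (j := t) ⟨ht, ht4, hlt.le.trans hs3⟩ hlt.le
  simp only at this
  linarith

theorem exists_good (T : Inf) : ∃ k : ℕ, Good T (e k.unpair.1 T) (e k.unpair.2 T) := by
  obtain ⟨s, hs, hs4, hmin⟩ := exists_min_point T
  have h0 : (0 : ℂ) ∈ T.1 := T.2.1
  have hs0 : (0 : ℂ) ≠ s := by
    rintro rfl
    simp at hs4
    linarith
  obtain ⟨T', hT', p', hp', q', hq', ⟨hne, h1, h2, h3, h4⟩, rfl⟩ := M_maximal (nf T 0 s)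
  have hspos : 0 < ‖s‖ := by linarith
  have hp := (mem_nf h0 hs hs0).1 hp'
  have hq := (mem_nf h0 hs hs0).1 hq'
  have hT := nf_nf h0 hs hs0 hp' hq' hne
  have e1 : ∀ u : ℂ, 0 + (s - 0) * u = s * u := fun u => by ring
  rw [e1, e1] at hT
  rw [e1] at hp hq
  rw [hT] at hT'
  have e2 : ‖s * q' - s * p'‖ = ‖s‖ * ‖q' - p'‖ := by rw [← mul_sub, norm_mul]
  obtain ⟨k, hk1, hk2⟩ := exists_H hp hq
  refine ⟨k, ?_⟩
  rw [hk1, hk2]
  refine ⟨?_, hT', ?_, ?_, ?_⟩
  · intro h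
    exact hne (mul_left_cancel₀ hs0.symm h)
  · rw [e2]
    nlinarith
  · rw [e2, norm_mul]
    gcongr
  · intro t ht ht4
    rw [e2]
    have := hmin t ht ht4
    nlinarith

theorem measurable_good {p q : Inf → ℂ} (hp : Measurable p) (hq : Measurable q) :
    Measurable (fun T => Good T (p T) (q T)) := by
  refine Measurable.and (Measurable.eq hp hq).not (Measurable.and ?_ (Measurable.and ?_
    (Measurable.and ?_ ?_)))
  · exact measurableSet_setOfPred.1 ((measurable_nf hp hq) measurableSet_M)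
  · exact measurableSet_setOfPred.1 (measurableSet_le measurable_const (hq.sub hp).norm)
  · exact measurableSet_setOfPred.1 (measurableSet_le hp.norm (hq.sub hp).norm)
  · refine measurable_forall_mem measurable_subtype_coe
      (p := fun T s => 4 ≤ ‖s‖ → ‖q T - p T‖ ≤ 2 * ‖s‖) ?_
    refine Measurable.imp ?_ ?_
    · exact measurableSet_setOfPred.1 (measurableSet_le measurable_const measurable_snd.norm)
    · exact measurableSet_setOfPred.1 (measurableSet_le ((hq.sub hp).norm.comp measurable_fst)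
        (measurable_snd.norm.const_mul 2))

open Classical in
/-- the index chosen by the climbing map -/
noncomputable def idx (T : Inf) : ℕ := Nat.find (exists_good T)

theorem measurable_idx : Measurable idx := by
  classical
  refine measurable_find _ (fun k => ?_)
  exact measurableSet_setOfPred.2 (measurable_good (measurable_e _) (measurable_e _))

/-- the climbing map -/
noncomputable def climb (T : Inf) : Inf := H (idx T) T

theorem measurable_climb : Measurable climb := by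
  have h2 : Measurable (fun p : Inf × ℕ => H p.2 p.1) :=
    measurable_from_prod_countable_left (fun k => measurable_H k)
  exact h2.comp (measurable_id.prodMk measurable_idx)

theorem climb_spec (T : Inf) : ∃ p ∈ T.1, ∃ q ∈ T.1, Good T p q ∧ climb T = nf T p q := by
  classical
  exact ⟨_, e_mem _ T, _, e_mem _ T, Nat.find_spec (exists_good T), rfl⟩

/-! ### marks -/

/-- an ordered pair of distinct points of `T` -/
def Mark (T : Inf) : Type := {x : ℂ × ℂ // x.1 ∈ T.1 ∧ x.2 ∈ T.1 ∧ x.1 ≠ x.2}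

namespace Mark

variable {T : Inf}

/-- first point -/
def p (x : Mark T) : ℂ := x.1.1

/-- second point -/
def q (x : Mark T) : ℂ := x.1.2

/-- distance of the two points -/
noncomputable def r (x : Mark T) : ℝ := ‖x.q - x.p‖

theorem hp (x : Mark T) : x.p ∈ T.1 := x.2.1

theorem hq (x : Mark T) : x.q ∈ T.1 := x.2.2.1

theorem hne (x : Mark T) : x.p ≠ x.q := x.2.2.2

theorem r_pos (x : Mark T) : 0 < x.r := norm_pos_iff.2 (sub_ne_zero.2 x.hne.symm)

/-- the normal form of a mark -/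
noncomputable def form (x : Mark T) : Inf := nf T x.p x.q

theorem exists_next (x : Mark T) : ∃ y : Mark T, climb x.form = y.form ∧ y.form ∈ M ∧
    2 * x.r ≤ y.r ∧ ‖y.p - x.p‖ ≤ y.r ∧ ∀ s ∈ T.1, 4 * x.r ≤ ‖s - x.p‖ → y.r ≤ 2 * ‖s - x.p‖ := by
  obtain ⟨u, hu, v, hv, ⟨huv, hM, h2, h3, h4⟩, hcl⟩ := climb_spec x.form
  have hu' := (mem_nf x.hp x.hq x.hne).1 hu
  have hv' := (mem_nf x.hp x.hq x.hne).1 hv
  have hr : x.q - x.p ≠ 0 := sub_ne_zero.2 x.hne.symm
  have hrp : 0 < ‖x.q - x.p‖ := norm_pos_iff.2 hr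
  have hne' : x.p + (x.q - x.p) * u ≠ x.p + (x.q - x.p) * v := by
    intro h
    exact huv (aff_injective x.p hr h)
  let y : Mark T := ⟨(x.p + (x.q - x.p) * u, x.p + (x.q - x.p) * v), hu', hv', hne'⟩
  have hy : y.form = nf x.form u v := by
    show nf T (x.p + (x.q - x.p) * u) (x.p + (x.q - x.p) * v) = nf (nf T x.p x.q) u v
    rw [nf_nf x.hp x.hq x.hne hu hv huv]
  have hyr : y.r = x.r * ‖v - u‖ := by
    show ‖(x.p + (x.q - x.p) * v) - (x.p + (x.q - x.p) * u)‖ = ‖x.q - x.p‖ * ‖v - u‖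
    rw [← norm_mul]
    congr 1
    ring
  refine ⟨y, ?_, ?_, ?_, ?_, ?_⟩
  · rw [hcl, hy]
  · rw [hy]; exact hM
  · rw [hyr]
    have := x.r_pos
    nlinarith
  · rw [hyr]
    show ‖x.p + (x.q - x.p) * u - x.p‖ ≤ ‖x.q - x.p‖ * ‖v - u‖
    rw [add_sub_cancel_left, norm_mul]
    gcongr
  · intro s hs hs4
    have hs' : (s - x.p) / (x.q - x.p) ∈ x.form.1 := pull_mem x.hp x.hq x.hne hs
    have h5 := h4 _ hs'
    rw [norm_div] at h5
    have h6 : 4 ≤ ‖s - x.p‖ / ‖x.q - x.p‖ := by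
      rw [le_div_iff₀ hrp]
      exact hs4
    have h7 := h5 h6
    rw [hyr]
    have h8 : ‖s - x.p‖ = ‖x.q - x.p‖ * (‖s - x.p‖ / ‖x.q - x.p‖) := by
      field_simp
    rw [h8]
    show ‖x.q - x.p‖ * ‖v - u‖ ≤ _
    nlinarith

/-- the next mark -/
noncomputable def next (x : Mark T) : Mark T := x.exists_next.choose

theorem climb_form (x : Mark T) : climb x.form = x.next.form := x.exists_next.choose_spec.1

theorem next_mem_M (x : Mark T) : x.next.form ∈ M := x.exists_next.choose_spec.2.1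

theorem next_r (x : Mark T) : 2 * x.r ≤ x.next.r := x.exists_next.choose_spec.2.2.1

theorem next_p (x : Mark T) : ‖x.next.p - x.p‖ ≤ x.next.r := x.exists_next.choose_spec.2.2.2.1

theorem next_min (x : Mark T) : ∀ s ∈ T.1, 4 * x.r ≤ ‖s - x.p‖ → x.next.r ≤ 2 * ‖s - x.p‖ :=
  x.exists_next.choose_spec.2.2.2.2

theorem climb_iterate (x : Mark T) (k : ℕ) : climb^[k] x.form = (next^[k] x).form := by
  induction k with
  | zero => rfl
  | succ k ih => rw [iterate_succ_apply', iterate_succ_apply', ih, climb_form]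

theorem mem_M_of_pos (x : Mark T) {k : ℕ} (hk : 1 ≤ k) : (next^[k] x).form ∈ M := by
  obtain ⟨k, rfl⟩ : ∃ j, k = j + 1 := ⟨k - 1, by omega⟩
  rw [iterate_succ_apply']
  exact next_mem_M _

theorem r_succ (x : Mark T) (k : ℕ) : 2 * (next^[k] x).r ≤ (next^[k + 1] x).r := by
  rw [iterate_succ_apply']
  exact next_r _

theorem r_pow (x : Mark T) (k : ℕ) : 2 ^ k * x.r ≤ (next^[k] x).r := by
  induction k with
  | zero => simp
  | succ k ih =>
    have := x.r_succ k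
    rw [pow_succ]
    nlinarith

theorem r_mono (x : Mark T) : Monotone (fun k => (next^[k] x).r) := by
  refine monotone_nat_of_le_succ (fun k => ?_)
  have := x.r_succ k
  have h2 := (next^[k] x).r_pos
  linarith

theorem r_large (x : Mark T) (R : ℝ) : ∃ k, R < (next^[k] x).r := by
  obtain ⟨k, hk⟩ := pow_unbounded_of_one_lt (R / x.r) (one_lt_two (α := ℝ))
  refine ⟨k, ?_⟩
  rw [div_lt_iff₀ x.r_pos] at hk
  exact hk.trans_le (x.r_pow k)

theorem p_dist (x : Mark T) (k : ℕ) : ‖(next^[k] x).p - x.p‖ ≤ 2 * (next^[k] x).r := by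
  induction k with
  | zero =>
    have := x.r_pos
    simp
    linarith
  | succ k ih =>
    have h1 := x.r_succ k
    have h2 := (next^[k] x).next_p
    rw [iterate_succ_apply'] at h1 ⊢
    calc ‖(next^[k] x).next.p - x.p‖
        = ‖((next^[k] x).next.p - (next^[k] x).p) + ((next^[k] x).p - x.p)‖ := by ring_nf
      _ ≤ ‖(next^[k] x).next.p - (next^[k] x).p‖ + ‖(next^[k] x).p - x.p‖ := norm_add_le _ _
      _ ≤ _ := by linarith

/-- two marks that are close have close normal forms -/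
theorem close_of {x y : Mark T} (h1 : ‖y.p - x.p‖ ≤ x.r) (h2 : ‖y.p - x.p‖ ≤ y.r)
    (h3 : y.r ≤ 2 * x.r) (h4 : x.r ≤ 2 * y.r) : Close x.form y.form := by
  have hr : x.q - x.p ≠ 0 := sub_ne_zero.2 x.hne.symm
  have hrp : 0 < ‖x.q - x.p‖ := norm_pos_iff.2 hr
  refine ⟨(y.p - x.p) / (x.q - x.p), pull_mem x.hp x.hq x.hne y.hp,
    (y.q - x.p) / (x.q - x.p), pull_mem x.hp x.hq x.hne y.hq, ⟨?_, ?_, ?_, ?_, ?_⟩, ?_⟩
  · intro h
    rw [div_left_inj' hr, sub_left_inj] at h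
    exact y.hne h
  · rw [norm_div, div_le_one hrp]
    exact h1
  · rw [← sub_div, norm_div, norm_div]
    gcongr
    have : y.q - x.p - (y.p - x.p) = y.q - y.p := by ring
    rw [this]
    exact h2
  · rw [← sub_div, norm_div, div_le_iff₀ hrp]
    have : y.q - x.p - (y.p - x.p) = y.q - y.p := by ring
    rw [this]
    exact h3
  · rw [← sub_div, norm_div, ← mul_div_assoc, le_div_iff₀ hrp]
    have : y.q - x.p - (y.p - x.p) = y.q - y.p := by ring
    rw [this, one_mul]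
    exact h4
  · exact (nf_nf_pull x.hp x.hq x.hne y.hp y.hq y.hne).symm

end Mark

/-- the base mark `(0, 1)` -/
def base (T : Inf) : Mark T := ⟨(0, 1), T.2.1, T.2.2.1, zero_ne_one⟩

theorem base_form (T : Inf) : (base T).form = T := nf_zero_one T

theorem base_r (T : Inf) : (base T).r = 1 := by
  show ‖(1 : ℂ) - 0‖ = 1
  simp

theorem base_p (T : Inf) : (base T).p = 0 := rfl

/-! ### backward orbits are finite -/

theorem back_finite (m : Inf) : {y | ∃ k, climb^[k] y = m}.Finite := by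
  have h1 := (m.1.finite_inter 3).prod (m.1.finite_inter 3)
  refine (h1.image (fun x => nf m x.1 x.2)).subset ?_
  rintro y ⟨k, hk⟩
  let x := Mark.next^[k] (base y)
  have hx : x.form = m := by
    rw [← hk, ← Mark.climb_iterate, base_form]
  have hr : x.q - x.p ≠ 0 := sub_ne_zero.2 x.hne.symm
  have hrp : 0 < ‖x.q - x.p‖ := norm_pos_iff.2 hr
  have hr1 : 1 ≤ x.r := by
    have h2 := (base y).r_pow k
    rw [base_r, mul_one] at h2
    exact (one_le_pow₀ one_le_two).trans h2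
  have hp := (base y).p_dist k
  rw [base_p, sub_zero] at hp
  have h0 : (0 - x.p) / (x.q - x.p) ∈ m.1 := by
    rw [← hx]
    exact pull_mem x.hp x.hq x.hne y.2.1
  have h1 : (1 - x.p) / (x.q - x.p) ∈ m.1 := by
    rw [← hx]
    exact pull_mem x.hp x.hq x.hne y.2.2.1
  refine ⟨((0 - x.p) / (x.q - x.p), (1 - x.p) / (x.q - x.p)), ⟨⟨h0, ?_⟩, ⟨h1, ?_⟩⟩, ?_⟩
  · rw [mem_closedBall_zero_iff, norm_div, div_le_iff₀ hrp, zero_sub, norm_neg]
    change ‖x.p‖ ≤ 2 * x.r at hp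
    change ‖x.p‖ ≤ 3 * x.r
    linarith
  · rw [mem_closedBall_zero_iff, norm_div, div_le_iff₀ hrp]
    change ‖x.p‖ ≤ 2 * x.r at hp
    change _ ≤ 3 * x.r
    calc ‖1 - x.p‖ ≤ ‖(1 : ℂ)‖ + ‖x.p‖ := norm_sub_le _ _
      _ ≤ 3 * x.r := by rw [norm_one]; linarith
  · simp only
    rw [← hx]
    have := nf_nf_pull x.hp x.hq x.hne y.2.1 y.2.2.1 zero_ne_one
    rw [nf_zero_one] at this
    exact this

/-! ### the vanishing markers -/

/-- the markers -/
def mark (n : ℕ) : Set Inf :=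
  {T | ∃ p ∈ T.1, ∃ q ∈ T.1, p ≠ q ∧ ‖p‖ ≤ 3 ∧ ‖q‖ ≤ 3 ∧ ((n : ℝ) + 1) * ‖q - p‖ ≤ 1}

theorem measurableSet_mark (n : ℕ) : MeasurableSet (mark n) := by
  refine measurableSet_setOfPred.2 ?_
  refine measurable_exists_mem measurable_subtype_coe (p := fun T p => ∃ q ∈ T.1, p ≠ q ∧
    ‖p‖ ≤ 3 ∧ ‖q‖ ≤ 3 ∧ ((n : ℝ) + 1) * ‖q - p‖ ≤ 1) ?_
  refine measurable_exists_mem (measurable_subtype_coe.comp measurable_fst)
    (p := fun (x : Inf × ℂ) q => x.2 ≠ q ∧
    ‖x.2‖ ≤ 3 ∧ ‖q‖ ≤ 3 ∧ ((n : ℝ) + 1) * ‖q - x.2‖ ≤ 1) ?_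
  have m1 : Measurable (fun x : (Inf × ℂ) × ℂ => x.1.2) := measurable_snd.comp measurable_fst
  have m2 : Measurable (fun x : (Inf × ℂ) × ℂ => x.2) := measurable_snd
  refine Measurable.and (Measurable.eq m1 m2).not (Measurable.and ?_ (Measurable.and ?_ ?_))
  · exact measurableSet_setOfPred.1 (measurableSet_le m1.norm measurable_const)
  · exact measurableSet_setOfPred.1 (measurableSet_le m2.norm measurable_const)
  · exact measurableSet_setOfPred.1 (measurableSet_le ((m2.sub m1).norm.const_mul _)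
      measurable_const)

theorem mark_anti (n : ℕ) : mark (n + 1) ⊆ mark n := by
  rintro T ⟨p, hp, q, hq, hne, h1, h2, h3⟩
  refine ⟨p, hp, q, hq, hne, h1, h2, ?_⟩
  push_cast at h3
  have := norm_nonneg (q - p)
  nlinarith

theorem mark_vanish (T : Inf) : ∃ n, T ∉ mark n := by
  classical
  have hfin := T.1.finite_inter 3
  have h1 : ∀ x : ℂ × ℂ, ∃ n : ℕ, x.1 ≠ x.2 → 1 < ((n : ℝ) + 1) * ‖x.2 - x.1‖ := by
    intro x
    by_cases h : x.1 = x.2
    · exact ⟨0, fun h' => absurd h h'⟩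
    · have h2 : 0 < ‖x.2 - x.1‖ := norm_pos_iff.2 (sub_ne_zero.2 (Ne.symm h))
      obtain ⟨n, hn⟩ := exists_nat_gt (1 / ‖x.2 - x.1‖)
      refine ⟨n, fun _ => ?_⟩
      rw [div_lt_iff₀ h2] at hn
      nlinarith
  choose nn hnn using h1
  refine ⟨(hfin.toFinset ×ˢ hfin.toFinset).sup nn, ?_⟩
  rintro ⟨p, hp, q, hq, hne, h2, h3, h4⟩
  have h5 : (p, q) ∈ hfin.toFinset ×ˢ hfin.toFinset := by
    rw [Finset.mem_product, hfin.mem_toFinset, hfin.mem_toFinset]
    exact ⟨⟨hp, by rw [mem_closedBall_zero_iff]; exact h2⟩,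
      ⟨hq, by rw [mem_closedBall_zero_iff]; exact h3⟩⟩
  have h6 : nn (p, q) ≤ (hfin.toFinset ×ˢ hfin.toFinset).sup nn := Finset.le_sup (f := nn) h5
  have h7 := hnn (p, q) hne
  simp only at h7
  have h8 : (nn (p, q) : ℝ) ≤ ((hfin.toFinset ×ˢ hfin.toFinset).sup nn : ℕ) := by exact_mod_cast h6
  have h9 := norm_nonneg (q - p)
  have h10 : ((nn (p, q) : ℝ) + 1) * ‖q - p‖ ≤
    (((hfin.toFinset ×ˢ hfin.toFinset).sup nn : ℕ) + 1) * ‖q - p‖ := by gcongr
  linarith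

theorem mark_rec (T : Inf) (n : ℕ) : ∃ k, climb^[k] T ∈ mark n := by
  obtain ⟨k, hk⟩ := (base T).r_large ((n : ℝ) + 1)
  refine ⟨k, ?_⟩
  let x := Mark.next^[k] (base T)
  have hx : climb^[k] T = x.form := by
    rw [← Mark.climb_iterate, base_form]
  rw [hx]
  have hr : x.q - x.p ≠ 0 := sub_ne_zero.2 x.hne.symm
  have hrp : 0 < ‖x.q - x.p‖ := norm_pos_iff.2 hr
  have hr1 : 1 ≤ x.r := by
    have h2 := (base T).r_pow k
    rw [base_r, mul_one] at h2
    exact (one_le_pow₀ one_le_two).trans h2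
  have hp := (base T).p_dist k
  rw [base_p, sub_zero] at hp
  change ‖x.p‖ ≤ 2 * x.r at hp
  change (n : ℝ) + 1 < x.r at hk
  refine ⟨(0 - x.p) / (x.q - x.p), pull_mem x.hp x.hq x.hne T.2.1,
    (1 - x.p) / (x.q - x.p), pull_mem x.hp x.hq x.hne T.2.2.1, ?_, ?_, ?_, ?_⟩
  · intro h
    rw [div_left_inj' hr] at h
    have h0 : (0 : ℂ) = 1 := by linear_combination h
    exact zero_ne_one h0
  · rw [norm_div, div_le_iff₀ hrp, zero_sub, norm_neg]
    change ‖x.p‖ ≤ 3 * x.r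
    linarith
  · rw [norm_div, div_le_iff₀ hrp]
    change _ ≤ 3 * x.r
    calc ‖1 - x.p‖ ≤ ‖(1 : ℂ)‖ + ‖x.p‖ := norm_sub_le _ _
      _ ≤ 3 * x.r := by rw [norm_one]; linarith
  · rw [← sub_div, norm_div, ← mul_div_assoc, div_le_one hrp]
    have : (1 : ℂ) - x.p - (0 - x.p) = 1 := by ring
    rw [this, norm_one, mul_one]
    exact hk.le

end Pool.Agent.MPab4ef0
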