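import Pool.Agent.Lib.MP_ab4ef0_lc.Defs

/-!
Conformal equivalences between complements of discrete closed sets are Moebius maps.
-/

namespace Pool.Agent.MPab4ef0

open Set Filter Topology Function

/-- Liouville's theorem across a discrete set. -/
theorem const_of_bounded_off_discrete {P : Set ℂ} (hP : ∀ z, ¬ AccPt z (𝓟 P)) {v : ℂ → ℂ}
    (hv : DifferentiableOn ℂ v Pᶜ) {M : ℝ} (hM : ∀ z ∈ Pᶜ, ‖v z‖ ≤ M) :
    ∃ c, ∀ z ∈ Pᶜ, v z = c := by
  have hPc : IsClosed P := isClosed_iff_accPt.2 (fun a ha => absurd ha (hP a))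
  have hPo : IsOpen Pᶜ := hPc.isOpen_compl
  have hev : ∀ z, ∀ᶠ w in 𝓝[≠] z, w ∈ Pᶜ := by
    intro z
    have := hP z
    rw [accPt_iff_frequently, not_frequently] at this
    rw [eventually_nhdsWithin_iff]
    filter_upwards [this] with w hw hw2 hw3
    exact hw ⟨hw2, hw3⟩
  have hdiff : ∀ z ∈ Pᶜ, DifferentiableAt ℂ v z := fun z hz =>
    hv.differentiableAt (hPo.mem_nhds hz)
  let V : ℂ → ℂ := fun z => limUnder (𝓝[≠] z) v
  have hVv : ∀ z ∈ Pᶜ, V z = v z := by
    intro z hz
    have : Tendsto v (𝓝[≠] z) (𝓝 (v z)) :=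
      ((hdiff z hz).continuousAt.tendsto).mono_left nhdsWithin_le_nhds
    exact this.limUnder_eq
  have hVd : Differentiable ℂ V := by
    intro z
    have h1 := hev z
    rw [eventually_nhdsWithin_iff, eventually_iff_exists_mem] at h1
    obtain ⟨s, hs, h1⟩ := h1
    have h2 : DifferentiableOn ℂ v (s \ {z}) := fun w hw =>
      (hdiff w (h1 w hw.1 hw.2)).differentiableWithinAt
    have h3 : BddAbove (norm ∘ v '' (s \ {z})) := by
      refine ⟨M, ?_⟩
      rintro _ ⟨w, hw, rfl⟩
      exact hM w (h1 w hw.1 hw.2)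
    have h4 := Complex.differentiableOn_update_limUnder_of_bddAbove hs h2 h3
    have h5 : DifferentiableAt ℂ (update v z (limUnder (𝓝[≠] z) v)) z := h4.differentiableAt hs
    refine h5.congr_of_eventuallyEq ?_
    filter_upwards [hs] with w hw
    by_cases hwz : w = z
    · subst hwz
      simp [V]
    · rw [update_of_ne hwz, hVv w (h1 w hw hwz)]
  have hVb : ∀ z, ‖V z‖ ≤ M := by
    intro z
    have h1 : Tendsto V (𝓝[≠] z) (𝓝 (V z)) :=
      ((hVd z).continuousAt.tendsto).mono_left nhdsWithin_le_nhds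
    refine le_of_tendsto h1.norm ?_
    filter_upwards [hev z] with w hw
    rw [hVv w hw]
    exact hM w hw
  have hb : Bornology.IsBounded (range V) := by
    rw [isBounded_iff_forall_norm_le]
    refine ⟨M, ?_⟩
    rintro _ ⟨z, rfl⟩
    exact hVb z
  refine ⟨V 0, fun z hz => ?_⟩
  rw [← hVv z hz]
  exact hVd.apply_eq_apply_of_bounded hb z 0

theorem accPt_insert {S : Set ℂ} (hS : ∀ z, ¬ AccPt z (𝓟 S)) (z0 : ℂ) :
    ∀ z, ¬ AccPt z (𝓟 (insert z0 S)) := by
  intro z h
  have h1 : z ∈ derivedSet ({z0} ∪ S) := by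
    rw [mem_derivedSet, ← Set.insert_eq]
    exact h
  rw [derivedSet_union] at h1
  rcases h1 with h1 | h1
  · rw [mem_derivedSet] at h1
    have := Set.Infinite.of_accPt h1
    exact this (Set.finite_singleton z0)
  · exact hS z h1

/-- The key: biholomorphic maps between complements of discrete closed sets are Moebius. -/
theorem moebius_of_conf {S T : Set ℂ} (hS : ∀ z, ¬ AccPt z (𝓟 S)) (hT : IsClosed T)
    {f g : ℂ → ℂ} (hf : DifferentiableOn ℂ f Sᶜ) (hg : DifferentiableOn ℂ g Tᶜ)
    (hfm : MapsTo f Sᶜ Tᶜ)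
    (hgf : ∀ z ∈ Sᶜ, g (f z) = z) :
    ∃ z0 c α : ℂ, z0 ∈ Sᶜ ∧ α ≠ 0 ∧ ∀ z ∈ Sᶜ, z ≠ z0 →
      (f z - f z0)⁻¹ = c + α * (z - z0)⁻¹ := by
  have hSc : IsClosed S := isClosed_iff_accPt.2 (fun a ha => absurd ha (hS a))
  have hSo : IsOpen Sᶜ := hSc.isOpen_compl
  have hTo : IsOpen Tᶜ := hT.isOpen_compl
  -- a base point
  obtain ⟨z0, hz0⟩ : ∃ z0, z0 ∈ Sᶜ := by
    have := hS 0
    rw [accPt_iff_frequently, not_frequently] at this
    have h2 : ∀ᶠ w in 𝓝[≠] (0 : ℂ), w ∈ Sᶜ := by
      rw [eventually_nhdsWithin_iff]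
      filter_upwards [this] with w hw hw2 hw3
      exact hw ⟨hw2, hw3⟩
    exact h2.exists
  set w0 := f z0 with hw0
  have hw0T : w0 ∈ Tᶜ := hfm hz0
  have hfd : DifferentiableAt ℂ f z0 := hf.differentiableAt (hSo.mem_nhds hz0)
  have hgd : DifferentiableAt ℂ g w0 := hg.differentiableAt (hTo.mem_nhds hw0T)
  have hinj : ∀ z ∈ Sᶜ, z ≠ z0 → f z - w0 ≠ 0 := by
    intro z hz hne h
    apply hne
    rw [← hgf z hz, sub_eq_zero.1 h, hw0, hgf z0 hz0]
  have hder : deriv f z0 ≠ 0 := by
    intro h0
    have h1 : HasDerivAt (g ∘ f) (deriv g w0 * deriv f z0) z0 :=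
      HasDerivAt.comp z0 hgd.hasDerivAt hfd.hasDerivAt
    have h2 : (g ∘ f) =ᶠ[𝓝 z0] id := by
      filter_upwards [hSo.mem_nhds hz0] with z hz
      exact hgf z hz
    have h3 : HasDerivAt (id : ℂ → ℂ) (deriv g w0 * deriv f z0) z0 :=
      h1.congr_of_eventuallyEq h2.symm
    have h4 := h3.unique (hasDerivAt_id z0)
    rw [h0, mul_zero] at h4
    exact zero_ne_one h4
  set α := (deriv f z0)⁻¹ with hα
  have hα0 : α ≠ 0 := inv_ne_zero hder
  let v : ℂ → ℂ := fun z => (f z - w0)⁻¹ - α * (z - z0)⁻¹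
  have hP := accPt_insert hS z0
  have hv : DifferentiableOn ℂ v (insert z0 S)ᶜ := by
    intro z hz
    simp only [mem_compl_iff, mem_insert_iff, not_or] at hz
    have h1 : DifferentiableAt ℂ f z := hf.differentiableAt (hSo.mem_nhds hz.2)
    have h2 : f z - w0 ≠ 0 := hinj z hz.2 hz.1
    have h3 : z - z0 ≠ 0 := sub_ne_zero.2 hz.1
    have h4 : DifferentiableAt ℂ v z := by
      apply DifferentiableAt.sub
      · exact (h1.sub_const w0).inv h2
      · exact ((differentiableAt_id.sub_const z0).inv h3).const_mul α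
    exact h4.differentiableWithinAt
  -- boundedness near `z0`
  have hnear : ∃ ε > 0, ∃ M1, ∀ z ∈ (insert z0 S)ᶜ, dist z z0 < ε → ‖v z‖ ≤ M1 := by
    let k : ℂ → ℂ := dslope f z0
    have hk : DifferentiableOn ℂ k Sᶜ :=
      (Complex.differentiableOn_dslope (hSo.mem_nhds hz0)).2 hf
    have hk0 : k z0 = deriv f z0 := dslope_same f z0
    have hkd : DifferentiableAt ℂ k z0 := hk.differentiableAt (hSo.mem_nhds hz0)
    let l : ℂ → ℂ := fun z => (k z)⁻¹
    have hld : DifferentiableAt ℂ l z0 := hkd.inv (by rw [hk0]; exact hder)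
    have hlc : ContinuousAt (dslope l z0) z0 := continuousAt_dslope_same.2 hld
    have h1 : ∀ᶠ z in 𝓝 z0, ‖dslope l z0 z‖ < ‖dslope l z0 z0‖ + 1 :=
      hlc.norm.eventually_lt continuousAt_const (by simp)
    obtain ⟨ε, hε, h2⟩ := Metric.eventually_nhds_iff.1 h1
    refine ⟨ε, hε, ‖dslope l z0 z0‖ + 1, fun z hz hd => ?_⟩
    simp only [mem_compl_iff, mem_insert_iff, not_or] at hz
    have h3 : v z = dslope l z0 z := by
      rw [dslope_of_ne _ hz.1, slope_def_field]
      simp only [l, v, k]
      rw [dslope_same, dslope_of_ne _ hz.1, slope_def_field, ← hw0]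
      have h2 : f z - w0 ≠ 0 := hinj z hz.2 hz.1
      have h3 : z - z0 ≠ 0 := sub_ne_zero.2 hz.1
      rw [hα]
      field_simp
    rw [h3]
    exact (h2 hd).le
  obtain ⟨ε, hε, M1, hM1⟩ := hnear
  -- boundedness away from `z0`
  have hfar : ∃ M2, ∀ z ∈ (insert z0 S)ᶜ, ε ≤ dist z z0 → ‖v z‖ ≤ M2 := by
    have h1 : ∀ᶠ w in 𝓝 w0, w ∈ Tᶜ ∧ dist (g w) z0 < ε := by
      refine Filter.Eventually.and (hTo.mem_nhds hw0T) ?_
      have h2 := hgd.continuousAt
      rw [Metric.continuousAt_iff'] at h2
      have := h2 ε hε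
      rwa [hw0, hgf z0 hz0, ← hw0] at this
    obtain ⟨δ, hδ, h2⟩ := Metric.eventually_nhds_iff.1 h1
    refine ⟨δ⁻¹ + ‖α‖ * ε⁻¹, fun z hz hd => ?_⟩
    simp only [mem_compl_iff, mem_insert_iff, not_or] at hz
    have h3 : δ ≤ ‖f z - w0‖ := by
      by_contra h
      push Not at h
      have h4 := (h2 (y := f z) (by rw [dist_eq_norm]; exact h)).2
      rw [hgf z hz.2] at h4
      exact absurd h4 (not_lt.2 hd)
    have h4 : ‖(f z - w0)⁻¹‖ ≤ δ⁻¹ := by
      rw [norm_inv]
      exact inv_anti₀ hδ h3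
    have h5 : ‖(z - z0)⁻¹‖ ≤ ε⁻¹ := by
      rw [norm_inv]
      rw [dist_eq_norm] at hd
      exact inv_anti₀ hε hd
    calc ‖v z‖ ≤ ‖(f z - w0)⁻¹‖ + ‖α * (z - z0)⁻¹‖ := norm_sub_le _ _
      _ ≤ δ⁻¹ + ‖α‖ * ε⁻¹ := by
        rw [norm_mul]
        gcongr
  obtain ⟨M2, hM2⟩ := hfar
  obtain ⟨c, hc⟩ := const_of_bounded_off_discrete hP hv (M := max M1 M2) (by
    intro z hz
    rcases lt_or_ge (dist z z0) ε with h | h
    · exact (hM1 z hz h).trans (le_max_left _ _)
    · exact (hM2 z hz h).trans (le_max_right _ _))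
  refine ⟨z0, c, α, hz0, hα0, fun z hz hne => ?_⟩
  have := hc z (by simp only [mem_compl_iff, mem_insert_iff, not_or]; exact ⟨hne, hz⟩)
  simp only [v] at this
  rw [← this]
  ring

/-- image under `z ↦ a z + b` -/
def affImg (a b : ℂ) (S : Set ℂ) : Set ℂ := (fun z => a * z + b) '' S

/-- image of `(S ∪ {∞}) \ {s}` under `z ↦ A + B / (z - s)` -/
def invImg (s A B : ℂ) (S : Set ℂ) : Set ℂ := insert A ((fun t => A + B / (t - s)) '' (S \ {s}))

theorem confEquiv_cases {S T : Set ℂ} (hS : ∀ z, ¬ AccPt z (𝓟 S)) (hT : IsClosed T)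
    (h : ConfEquiv S T) :
    (∃ a b : ℂ, a ≠ 0 ∧ T = affImg a b S) ∨
    (∃ s ∈ S, ∃ A B : ℂ, B ≠ 0 ∧ T = invImg s A B S) := by
  obtain ⟨f, g, hf, hg, hfm, hgm, hgf, hfg⟩ := h
  obtain ⟨z0, c, α, hz0, hα, key⟩ := moebius_of_conf hS hT hf hg hfm hgf
  have hinj : ∀ z ∈ Sᶜ, z ≠ z0 → f z - f z0 ≠ 0 := by
    intro z hz hne h
    apply hne
    rw [← hgf z hz, sub_eq_zero.1 h, hgf z0 hz0]
  -- `w ∈ T` iff `w` is not a value of `f`
  have hmem : ∀ w, w ∈ T ↔ ∀ z ∈ Sᶜ, f z ≠ w := by
    intro w
    constructor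
    · intro hw z hz hzw
      exact hfm hz (hzw ▸ hw)
    · intro h
      by_contra hw
      exact h (g w) (hgm hw) (hfg w hw)
  by_cases hc : c = 0
  · left
    refine ⟨α⁻¹, f z0 - α⁻¹ * z0, inv_ne_zero hα, ?_⟩
    have hfz : ∀ z ∈ Sᶜ, f z = α⁻¹ * z + (f z0 - α⁻¹ * z0) := by
      intro z hz
      by_cases hne : z = z0
      · subst hne; ring
      · have h1 := key z hz hne
        rw [hc, zero_add] at h1
        have h2 : f z - f z0 = α⁻¹ * (z - z0) := by
          have := congrArg (fun x => x⁻¹) h1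
          rw [mul_comm]
          simpa [mul_inv] using this
        linear_combination h2
    ext w
    rw [hmem]
    constructor
    · intro h
      refine ⟨α * (w - (f z0 - α⁻¹ * z0)), ?_, ?_⟩
      · by_contra hn
        apply h _ hn
        rw [hfz _ hn]
        field_simp
        ring
      · simp only
        field_simp
        ring
    · rintro ⟨z, hz, rfl⟩ z' hz' he
      rw [hfz z' hz'] at he
      have : z' = z := by
        have h1 : α⁻¹ * z' = α⁻¹ * z := by
          simpa using he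
        exact mul_left_cancel₀ (inv_ne_zero hα) h1
      exact hz' (this ▸ hz)
  · right
    set s := z0 - α / c with hs
    have hsz0 : s ≠ z0 := by
      intro h
      have h1 : α / c = 0 := by
        have : z0 - α / c = z0 := h
        linear_combination -this
      rcases div_eq_zero_iff.1 h1 with h2 | h2
      · exact hα h2
      · exact hc h2
    have hsS : s ∈ S := by
      by_contra hn
      have h1 := key s hn hsz0
      have h2 : c + α * (s - z0)⁻¹ = 0 := by
        rw [hs]
        have : z0 - α / c - z0 = - (α / c) := by ring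
        rw [this]
        field_simp
        ring
      rw [h2] at h1
      exact hinj s hn hsz0 (inv_eq_zero.1 h1)
    have hne_s : ∀ z ∈ Sᶜ, z - s ≠ 0 := by
      intro z hz h
      exact hz ((sub_eq_zero.1 h) ▸ hsS)
    refine ⟨s, hsS, f z0 + c⁻¹, - α / c ^ 2, ?_, ?_⟩
    · exact div_ne_zero (neg_ne_zero.2 hα) (pow_ne_zero 2 hc)
    have hfz : ∀ z ∈ Sᶜ, f z = (f z0 + c⁻¹) + (- α / c ^ 2) / (z - s) := by
      intro z hz
      by_cases hne : z = z0
      · subst hne
        have : z - s = α / c := by rw [hs]; ring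
        rw [this]
        field_simp
        ring
      · have h1 := key z hz hne
        have h3 : z - z0 ≠ 0 := sub_ne_zero.2 hne
        have h4 := hne_s z hz
        have h5 : c + α * (z - z0)⁻¹ = c * (z - s) / (z - z0) := by
          rw [hs]
          field_simp
          ring
        rw [h5] at h1
        have h2 : f z - f z0 = (z - z0) / (c * (z - s)) := by
          have := congrArg (fun x => x⁻¹) h1
          simpa [inv_div] using this
        have h6 : z - z0 = (z - s) - α / c := by rw [hs]; ring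
        have h7 : f z = f z0 + (z - z0) / (c * (z - s)) := by linear_combination h2
        rw [h7, h6]
        field_simp
        ring
    have hB : (- α / c ^ 2) ≠ 0 := div_ne_zero (neg_ne_zero.2 hα) (pow_ne_zero 2 hc)
    generalize (- α / c ^ 2) = B at hfz hB
    generalize (f z0 + c⁻¹) = A at hfz
    ext w
    rw [hmem]
    unfold invImg
    constructor
    · intro h
      by_cases hwA : w = A
      · left; exact hwA
      · right
        have hwA' : w - A ≠ 0 := sub_ne_zero.2 hwA
        have h1 : A + B / (s + B / (w - A) - s) = w := by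
          have : s + B / (w - A) - s = B / (w - A) := by ring
          rw [this]
          field_simp
          ring
        refine ⟨s + B / (w - A), ⟨?_, ?_⟩, h1⟩
        · by_contra hn
          apply h _ hn
          rw [hfz _ hn, h1]
        · simp only [mem_singleton_iff, add_eq_left]
          exact div_ne_zero hB hwA'
    · rintro (rfl | ⟨t, ⟨ht, hts⟩, rfl⟩) z hz he
      · rw [hfz z hz] at he
        have : B / (z - s) = 0 := by simpa using he
        rcases div_eq_zero_iff.1 this with h2 | h2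
        · exact hB h2
        · exact hne_s z hz h2
      · rw [hfz z hz] at he
        have hts' : t - s ≠ 0 := sub_ne_zero.2 hts
        have h4 := hne_s z hz
        have h5 : B / (z - s) = B / (t - s) := by simpa using he
        rw [div_eq_div_iff h4 hts'] at h5
        have h6 := mul_left_cancel₀ hB h5
        have : z = t := by linear_combination -h6
        exact hz (this ▸ ht)

theorem confEquiv_affImg {S : Set ℂ} {a b : ℂ} (ha : a ≠ 0) : ConfEquiv S (affImg a b S) := by
  refine ⟨fun z => a * z + b, fun w => (w - b) / a, ?_, ?_, ?_, ?_, ?_, ?_⟩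
  · exact ((differentiable_id.const_mul a).add_const b).differentiableOn
  · exact ((differentiable_id.sub_const b).div_const a).differentiableOn
  · rintro z hz ⟨z', hz', he⟩
    have : z' = z := by
      have h1 : a * z' = a * z := by simpa using he
      exact mul_left_cancel₀ ha h1
    exact hz (this ▸ hz')
  · intro w hw hn
    apply hw
    refine ⟨(w - b) / a, hn, ?_⟩
    simp only
    field_simp
    ring
  · intro z _
    simp only
    field_simp
    ring
  · intro z _
    simp only
    field_simp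
    ring

theorem confEquiv_invImg {S : Set ℂ} {s A B : ℂ} (hs : s ∈ S) (hB : B ≠ 0) :
    ConfEquiv S (invImg s A B S) := by
  have hne : ∀ z ∈ Sᶜ, z - s ≠ 0 := by
    intro z hz h
    exact hz ((sub_eq_zero.1 h) ▸ hs)
  have hneA : ∀ w ∈ (invImg s A B S)ᶜ, w - A ≠ 0 := by
    intro w hw h
    apply hw
    rw [sub_eq_zero.1 h]
    exact mem_insert _ _
  refine ⟨fun z => A + B / (z - s), fun w => s + B / (w - A), ?_, ?_, ?_, ?_, ?_, ?_⟩
  · intro z hz
    exact ((((differentiableAt_id.sub_const s).inv (hne z hz)).const_mul B).const_add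
      A).differentiableWithinAt
  · intro z hz
    exact ((((differentiableAt_id.sub_const A).inv (hneA z hz)).const_mul B).const_add
      s).differentiableWithinAt
  · rintro z hz (h | ⟨t, ⟨ht, hts⟩, he⟩)
    · have h0 : B / (z - s) = 0 := by simpa using h
      rcases div_eq_zero_iff.1 h0 with h2 | h2
      · exact hB h2
      · exact hne z hz h2
    · have hts' : t - s ≠ 0 := sub_ne_zero.2 hts
      have h4 := hne z hz
      have h5 : B / (t - s) = B / (z - s) := by simpa using he
      rw [div_eq_div_iff hts' h4] at h5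
      have h6 := mul_left_cancel₀ hB h5
      have : z = t := by linear_combination h6
      exact hz (this ▸ ht)
  · intro w hw hn
    have h1 := hneA w hw
    apply hw
    right
    refine ⟨s + B / (w - A), ⟨hn, ?_⟩, ?_⟩
    · simp only [mem_singleton_iff, add_eq_left]
      exact div_ne_zero hB h1
    · simp only
      have : s + B / (w - A) - s = B / (w - A) := by ring
      rw [this]
      field_simp
      ring
  · intro z hz
    have h1 := hne z hz
    simp only
    have : A + B / (z - s) - A = B / (z - s) := by ring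
    rw [this]
    field_simp
    ring
  · intro w hw
    have h1 := hneA w hw
    simp only
    have : s + B / (w - A) - s = B / (w - A) := by ring
    rw [this]
    field_simp
    ring

end Pool.Agent.MPab4ef0
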