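import Mathlib

/-!
Definitions for the problem MP_ab4ef0_lc.
-/

namespace Pool.Agent.MPab4ef0

open Set Filter Topology

section Borel

variable {X Y : Type} [MeasurableSpace X] [MeasurableSpace Y]

/-- `E` is a Borel equivalence relation on `X`: an equivalence relation which is a Borel
subset of `X × X`. -/
def IsBorelEquiv (E : X → X → Prop) : Prop :=
  Equivalence E ∧ MeasurableSet {p : X × X | E p.1 p.2}

/-- A countable Borel equivalence relation: a Borel equivalence relation all of whose classes
are countable. -/
def IsCountableBorelEquiv (E : X → X → Prop) : Prop :=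
  IsBorelEquiv E ∧ ∀ x, {y | E x y}.Countable

/-- `E` is the union of an increasing sequence of Borel equivalence relations with finite
classes. -/
def IsHyperfinite (E : X → X → Prop) : Prop :=
  ∃ R : ℕ → X → X → Prop,
    (∀ n, IsBorelEquiv (R n) ∧ ∀ x, {y | R n x y}.Finite) ∧
    (∀ n x y, R n x y → R (n + 1) x y) ∧
    (∀ x y, E x y ↔ ∃ n, R n x y)

/-- Borel reducibility of equivalence relations. -/
def BorelReducible (E : X → X → Prop) (F : Y → Y → Prop) : Prop :=
  ∃ f : X → Y, Measurable f ∧ ∀ x x', E x x' ↔ F (f x) (f x')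

end Borel

/-- A Borel equivalence relation `E` on a standard Borel space `X` is essentially hyperfinite if
it is Borel bireducible with a hyperfinite countable Borel equivalence relation `F` on some
standard Borel space `Y`. -/
def IsEssentiallyHyperfinite {X : Type} [MeasurableSpace X] [StandardBorelSpace X]
    (E : X → X → Prop) : Prop :=
  IsBorelEquiv E ∧
  ∃ (Y : Type) (_ : MeasurableSpace Y) (_ : StandardBorelSpace Y) (F : Y → Y → Prop),
    IsCountableBorelEquiv F ∧ IsHyperfinite F ∧ BorelReducible E F ∧ BorelReducible F E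

/-- The Effros Borel structure on the closed subsets of `ℂ`: the σ-algebra generated by the sets
`{F | F ∩ U ≠ ∅}`, `U` open. -/
@[reducible] def effros : MeasurableSpace (TopologicalSpace.Closeds ℂ) :=
  MeasurableSpace.generateFrom
    {A | ∃ U : Set ℂ, IsOpen U ∧
      A = {F : TopologicalSpace.Closeds ℂ | ((F : Set ℂ) ∩ U).Nonempty}}

/-- The set `𝒟` of closed subsets of `ℂ` without accumulation point in `ℂ`. -/
structure DiscSet where
  /-- the underlying closed set -/
  closed : TopologicalSpace.Closeds ℂ
  /-- no point of the plane is an accumulation point -/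
  noAcc : ∀ z : ℂ, ¬ AccPt z (𝓟 (closed : Set ℂ))

/-- `𝒟` carries the Borel structure inherited from the Effros Borel space. -/
instance instMeasurableSpaceDiscSet : MeasurableSpace DiscSet :=
  MeasurableSpace.comap DiscSet.closed effros

/-- `ℂ \ S` and `ℂ \ T` are conformally equivalent: there is a biholomorphic bijection between
them (`f` is holomorphic on `ℂ \ S`, `g` is holomorphic on `ℂ \ T`, and they are mutually
inverse bijections). -/
def ConfEquiv (S T : Set ℂ) : Prop :=
  ∃ f g : ℂ → ℂ, DifferentiableOn ℂ f Sᶜ ∧ DifferentiableOn ℂ g Tᶜ ∧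
    MapsTo f Sᶜ Tᶜ ∧ MapsTo g Tᶜ Sᶜ ∧
    (∀ z ∈ Sᶜ, g (f z) = z) ∧ (∀ w ∈ Tᶜ, f (g w) = w)

/-- The relation `E` of conformal equivalence on `𝒟`. -/
def confRel (S T : DiscSet) : Prop := ConfEquiv (S.closed : Set ℂ) (T.closed : Set ℂ)

end Pool.Agent.MPab4ef0
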