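import Pool.Agent.Lib.MP_ab4ef0_lc.Pack

/-!
Conformal equivalence of complements of discrete sets is essentially hyperfinite.
-/

namespace Pool.Agent.MPab4ef0

open Set Filter Topology Function

open DiscSet

/-! ### conformal equivalence is an equivalence relation -/

theorem ConfEquiv.refl (S : Set ℂ) : ConfEquiv S S :=
  ⟨id, id, differentiableOn_id, differentiableOn_id, mapsTo_id _, mapsTo_id _, fun _ _ => rfl,
    fun _ _ => rfl⟩

theorem ConfEquiv.symm {S T : Set ℂ} (h : ConfEquiv S T) : ConfEquiv T S := by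
  obtain ⟨f, g, h1, h2, h3, h4, h5, h6⟩ := h
  exact ⟨g, f, h2, h1, h4, h3, h6, h5⟩

theorem ConfEquiv.trans {S T U : Set ℂ} (h : ConfEquiv S T) (h' : ConfEquiv T U) :
    ConfEquiv S U := by
  obtain ⟨f, g, h1, h2, h3, h4, h5, h6⟩ := h
  obtain ⟨f', g', h1', h2', h3', h4', h5', h6'⟩ := h'
  refine ⟨f' ∘ f, g ∘ g', h1'.comp h1 h3, h2.comp h2' h4', h3'.comp h3, h4.comp h4', ?_, ?_⟩
  · intro z hz
    simp only [comp_apply]
    rw [h5' _ (h3 hz), h5 z hz]
  · intro w hw
    simp only [comp_apply]
    rw [h6 _ (h4' hw), h6' w hw]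

theorem confRel_equivalence : Equivalence confRel :=
  ⟨fun _ => ConfEquiv.refl _, fun h => ConfEquiv.symm h, fun h h' => ConfEquiv.trans h h'⟩

theorem confRel_aff (p r : ℂ) (S : DiscSet) : confRel S (aff p r S) := by
  by_cases hr : r = 0
  · rw [hr, aff_zero]
    exact ConfEquiv.refl _
  · have h1 := coe_aff_eq_affImg (a := r⁻¹) (b := -p / r) (inv_ne_zero hr) S
    have h2 : -(-p / r) / r⁻¹ = p := by
      field_simp
    rw [h2, inv_inv] at h1
    unfold confRel
    rw [← coe_def, ← coe_def, h1]
    exact confEquiv_affImg (inv_ne_zero hr)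

theorem confRel_opA (i j : ℕ) (S : DiscSet) : confRel S (opA i j S) := confRel_aff _ _ _

theorem confRel_inv (s : ℂ) (S : DiscSet) : confRel S (inv s S) := by
  by_cases h : (S : Set ℂ).Finite ∧ s ∈ S
  · unfold confRel
    rw [← coe_def, ← coe_def, inv_of h.1 h.2]
    have h1 := invImg_eq (A := 0) (B := 1) (S := (S : Set ℂ)) h.2 one_ne_zero
    have h2 : affImg 1 0 (invSet s (S : Set ℂ)) = invSet s (S : Set ℂ) := by
      simp [affImg]
    rw [← h2, ← h1]
    exact confEquiv_invImg h.2 one_ne_zero
  · rw [inv_of_not h]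
    exact ConfEquiv.refl _

theorem confRel_opJ (b : Bool) (l : ℕ) (S : DiscSet) : confRel S (opJ b l S) := by
  unfold opJ
  split_ifs
  · exact confRel_inv _ _
  · exact ConfEquiv.refl _

theorem finite_of_inv {S T : DiscSet} {s A B : ℂ} (hB : B ≠ 0)
    (h : (T : Set ℂ) = invImg s A B S) : (S : Set ℂ).Finite := by
  have hinj : Injective (fun t : ℂ => A + B / (t - s)) := by
    intro t t' htt
    simp only [add_right_inj] at htt
    rw [div_eq_mul_inv, div_eq_mul_inv] at htt
    have h1 := inv_injective (mul_left_cancel₀ hB htt)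
    linear_combination h1
  have h1 := S.finite_inter' s 1
  have h2 := (T.finite_inter' A ‖B‖).preimage hinj.injOn
  refine (h1.union h2).subset ?_
  intro t ht
  by_cases hts : ‖t - s‖ ≤ 1
  · left
    exact ⟨ht, by rw [Metric.mem_closedBall, dist_eq_norm]; exact hts⟩
  · right
    push Not at hts
    refine ⟨?_, ?_⟩
    · rw [h]
      right
      refine ⟨t, ⟨ht, ?_⟩, rfl⟩
      rintro rfl
      simp at hts
      linarith
    · rw [Metric.mem_closedBall, dist_eq_norm]
      have : A + B / (t - s) - A = B / (t - s) := by ring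
      rw [this, norm_div]
      exact div_le_self (norm_nonneg B) hts.le

/-- the combined operations -/
noncomputable def op (b : Bool) (l i j : ℕ) (S : DiscSet) : DiscSet := opA i j (opJ b l S)

theorem measurable_op (b : Bool) (l i j : ℕ) : Measurable (op b l i j) :=
  (measurable_opA i j).comp (measurable_opJ b l)

theorem confRel_op (b : Bool) (l i j : ℕ) (S : DiscSet) : confRel S (op b l i j S) :=
  confRel_equivalence.trans (confRel_opJ b l S) (confRel_opA i j _)

theorem confRel_cases {S T : DiscSet} (h : confRel S T) :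
    (∃ a b : ℂ, a ≠ 0 ∧ (T : Set ℂ) = affImg a b S) ∨
    ((S : Set ℂ).Finite ∧ ∃ s ∈ S, ∃ A B : ℂ, B ≠ 0 ∧
      (T : Set ℂ) = affImg B A (inv s S)) := by
  rcases confEquiv_cases S.noAcc T.closed.isClosed h with ⟨a, b, ha, h⟩ | ⟨s, hs, A, B, hB, h⟩
  · left
    exact ⟨a, b, ha, h⟩
  · right
    have hfin : (S : Set ℂ).Finite := finite_of_inv (T := T) hB h
    refine ⟨hfin, s, hs, A, B, hB, ?_⟩
    rw [inv_of hfin hs, ← invImg_eq (S := (S : Set ℂ)) hs hB]
    exact h

theorem exists_op_of_confRel {x y : DiscSet} (hy : y ∈ normalForms) (h : confRel x y) :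
    ∃ b l i j, op b l i j x = y := by
  rcases confRel_cases h with ⟨a, b, ha, h⟩ | ⟨-, s, hs, A, B, hB, h⟩
  · obtain ⟨i, j, hij⟩ := exists_opA_eq ha h hy
    exact ⟨false, 0, i, j, by simpa [op, opJ] using hij⟩
  · obtain ⟨i, j, hij⟩ := exists_opA_eq hB h hy
    obtain ⟨l, -, hl⟩ := exists_pt hs
    exact ⟨true, l, i, j, by simpa [op, opJ, hl] using hij⟩

/-! ### the space of normal forms -/

theorem measurableSet_normalForms : MeasurableSet normalForms := by
  have h1 : normalForms = {S : DiscSet | (∀ z ∈ S, z = 0) ∨ ((0 : ℂ) ∈ S ∧ (1 : ℂ) ∈ S)} := by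
    ext S
    unfold normalForms
    simp only [mem_ofPred_eq]
    constructor
    · rintro (h | h | h)
      · left
        intro z hz
        have : z ∈ (S : Set ℂ) := hz
        rw [h] at this
        exact absurd this (notMem_empty z)
      · left
        intro z hz
        have : z ∈ (S : Set ℂ) := hz
        rw [h] at this
        exact this
      · right
        exact h
    · rintro (h | h)
      · rcases (S : Set ℂ).eq_empty_or_nonempty with h' | ⟨z, hz⟩
        · left
          exact h'
        · right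
          left
          apply Subset.antisymm
          · intro w hw
            exact h w hw
          · rintro w rfl
            have := h z hz
            subst this
            exact hz
      · right
        right
        exact h
  rw [h1]
  refine measurableSet_setOfPred.2 (Measurable.or ?_ (Measurable.and ?_ ?_))
  · exact measurable_forall_mem measurable_id (p := fun _ z => z = 0)
      (Measurable.eq measurable_snd measurable_const)
  · exact measurable_mem measurable_id measurable_const
  · exact measurable_mem measurable_id measurable_const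

/-- the standard Borel space of normal forms -/
abbrev NF : Type := normalForms

instance : StandardBorelSpace NF := measurableSet_normalForms.standardBorel

/-- conformal equivalence of normal forms -/
def relNF (x y : NF) : Prop := confRel x.1 y.1

theorem relNF_equivalence : Equivalence relNF :=
  ⟨fun x => confRel_equivalence.refl x.1, fun h => confRel_equivalence.symm h,
    fun h h' => confRel_equivalence.trans h h'⟩

theorem relNF_iff {x y : NF} : relNF x y ↔ ∃ b l i j, op b l i j x.1 = y.1 := by
  constructor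
  · exact exists_op_of_confRel y.2
  · rintro ⟨b, l, i, j, h⟩
    unfold relNF
    rw [← h]
    exact confRel_op b l i j x.1

theorem measurableSet_relNF : MeasurableSet {p : NF × NF | relNF p.1 p.2} := by
  simp only [relNF_iff]
  refine measurableSet_setOfPred.2 (Measurable.exists fun b => Measurable.exists fun l =>
    Measurable.exists fun i => Measurable.exists fun j => Measurable.eq ?_ ?_)
  · exact (measurable_op b l i j).comp (measurable_subtype_coe.comp measurable_fst)
  · exact measurable_subtype_coe.comp measurable_snd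

theorem relNF_borel : IsBorelEquiv relNF := ⟨relNF_equivalence, measurableSet_relNF⟩

theorem relNF_countable (x : NF) : {y | relNF x y}.Countable := by
  have h1 : {y | relNF x y} ⊆ ⋃ t : Bool × ℕ × ℕ × ℕ, {y : NF | op t.1 t.2.1 t.2.2.1 t.2.2.2 x.1 =
      y.1} := by
    intro y hy
    obtain ⟨b, l, i, j, h⟩ := relNF_iff.1 hy
    exact mem_iUnion.2 ⟨(b, l, i, j), h⟩
  refine Set.Countable.mono h1 (countable_iUnion fun t => ?_)
  refine Set.Subsingleton.countable ?_
  intro y hy y' hy'
  exact Subtype.ext (hy.symm.trans hy')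

theorem finite_opA {S : DiscSet} (hS : (S : Set ℂ).Finite) :
    {T | ∃ i j, opA i j S = T}.Finite := by
  have h1 : ((insert (0 : ℂ) (S : Set ℂ)) ×ˢ (insert (0 : ℂ) (insert (1 : ℂ)
      ((fun x : ℂ × ℂ => x.1 - x.2) '' ((S : Set ℂ) ×ˢ (S : Set ℂ)))))).Finite := by
    refine Set.Finite.prod (hS.insert 0) ?_
    exact (((hS.prod hS).image _).insert 1).insert 0
  refine (h1.image (fun x => aff x.1 x.2 S)).subset ?_
  rintro T ⟨i, j, rfl⟩
  refine ⟨(pt i S, rad i j S), ⟨?_, ?_⟩, rfl⟩
  · by_cases hi : val S i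
    · right
      exact pt_mem hi
    · left
      exact pt_of_not hi
  · simp only
    unfold rad
    split_ifs with hi hj
    · right
      right
      exact ⟨(pt j S, pt i S), ⟨pt_mem hj.1, pt_mem hi⟩, rfl⟩
    · right
      left
      rfl
    · left
      rfl

theorem finite_opJ (b : Bool) {S : DiscSet} (hS : (S : Set ℂ).Finite) :
    {T | ∃ l, opJ b l S = T}.Finite := by
  have h1 : (insert S ((fun s => inv s S) '' (insert (0 : ℂ) (S : Set ℂ)))).Finite :=
    ((hS.insert 0).image _).insert S
  refine h1.subset ?_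
  rintro T ⟨l, rfl⟩
  unfold opJ
  split_ifs
  · right
    refine ⟨pt l S, ?_, rfl⟩
    by_cases hi : val S l
    · right
      exact pt_mem hi
    · left
      exact pt_of_not hi
  · left
    rfl

theorem finite_coe_opJ (b : Bool) (l : ℕ) {S : DiscSet} (hS : (S : Set ℂ).Finite) :
    (opJ b l S : Set ℂ).Finite := by
  unfold opJ
  split_ifs
  · by_cases h : (S : Set ℂ).Finite ∧ pt l S ∈ S
    · rw [inv_of h.1 h.2]
      exact invSet_finite _ h.1
    · rw [inv_of_not h]
      exact hS
  · exact hS

theorem relNF_finite_class {x : NF} (hx : (x.1 : Set ℂ).Finite) : {y | relNF x y}.Finite := by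
  have h1 : (⋃ b : Bool, ⋃ U ∈ {T | ∃ l, opJ b l x.1 = T}, {T | ∃ i j, opA i j U = T}).Finite := by
    refine Set.finite_iUnion fun b => ?_
    refine Set.Finite.biUnion (finite_opJ b hx) ?_
    rintro U ⟨l, rfl⟩
    exact finite_opA (finite_coe_opJ b l hx)
  refine (h1.preimage (f := (Subtype.val : NF → DiscSet)) Subtype.val_injective.injOn).subset ?_
  intro y hy
  obtain ⟨b, l, i, j, h⟩ := relNF_iff.1 hy
  simp only [mem_preimage, mem_iUnion]
  exact ⟨b, opJ b l x.1, ⟨l, rfl⟩, i, j, h⟩

theorem confRel_finite {S T : DiscSet} (h : confRel S T) (hS : (S : Set ℂ).Finite) :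
    (T : Set ℂ).Finite := by
  rcases confRel_cases h with ⟨a, b, -, h⟩ | ⟨-, s, hs, A, B, -, h⟩
  · rw [h]
    exact hS.image _
  · rw [h, inv_of hS hs]
    exact (invSet_finite s hS).image _

theorem mem_infSet {x : NF} (hx : (x.1 : Set ℂ).Infinite) : x.1 ∈ infSet := by
  rcases x.2 with h | h | h
  · rw [h] at hx
    exact absurd Set.finite_empty hx
  · rw [h] at hx
    exact absurd (Set.finite_singleton _) hx
  · exact ⟨h.1, h.2, hx⟩

theorem classRel_iff_confRel {S T : Inf} : classRel S T ↔ confRel S.1 T.1 := by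
  rw [classRel_iff]
  constructor
  · rintro ⟨x, rfl⟩
    have : x.form.1 = aff x.p (x.q - x.p) S.1 := nf_val x.hp x.hq x.hne
    rw [this]
    exact confRel_aff _ _ _
  · intro h
    rcases confRel_cases h with ⟨a, b, ha, h⟩ | ⟨hfin, -⟩
    · have hT : T.1 = aff (-b / a) a⁻¹ S.1 := ext_set (by rw [coe_aff_eq_affImg ha, h])
      have h0 : -b / a ∈ S.1 := by
        have := T.2.1
        rw [hT, mem_aff (inv_ne_zero ha)] at this
        simpa using this
      have h1 : -b / a + a⁻¹ ∈ S.1 := by
        have := T.2.2.1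
        rw [hT, mem_aff (inv_ne_zero ha)] at this
        simpa using this
      have hne : -b / a ≠ -b / a + a⁻¹ := by
        intro h
        have : a⁻¹ = 0 := by simpa using h
        exact inv_ne_zero ha this
      refine ⟨⟨(-b / a, -b / a + a⁻¹), h0, h1, hne⟩, ?_⟩
      apply Subtype.ext
      rw [hT]
      refine (nf_val h0 h1 hne).trans ?_
      congr 1
      ring
    · exact absurd hfin S.2.2.2

theorem relNF_hyperfinite : IsHyperfinite relNF := by
  obtain ⟨R, hR1, hR2, hR3⟩ := classRel_hyperfinite
  let Q : ℕ → NF → NF → Prop := fun n x y => relNF x y ∧ ((x.1 : Set ℂ).Finite ∨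
    ∃ (hx : x.1 ∈ infSet) (hy : y.1 ∈ infSet), R n ⟨x.1, hx⟩ ⟨y.1, hy⟩)
  refine ⟨Q, fun n => ⟨⟨⟨?_, ?_, ?_⟩, ?_⟩, ?_⟩, ?_, ?_⟩
  · intro x
    refine ⟨relNF_equivalence.refl x, ?_⟩
    by_cases hx : (x.1 : Set ℂ).Finite
    · exact Or.inl hx
    · exact Or.inr ⟨mem_infSet hx, mem_infSet hx, (hR1 n).1.1.refl _⟩
  · rintro x y ⟨h1, h2⟩
    refine ⟨relNF_equivalence.symm h1, ?_⟩
    rcases h2 with h2 | ⟨hx, hy, h2⟩
    · exact Or.inl (confRel_finite h1 h2)
    · exact Or.inr ⟨hy, hx, (hR1 n).1.1.symm h2⟩
  · rintro x y z ⟨h1, h2⟩ ⟨h1', h2'⟩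
    refine ⟨relNF_equivalence.trans h1 h1', ?_⟩
    rcases h2 with h2 | ⟨hx, hy, h2⟩
    · exact Or.inl h2
    · rcases h2' with h2' | ⟨hy', hz, h2'⟩
      · exact absurd h2' hy.2.2
      · exact Or.inr ⟨hx, hz, (hR1 n).1.1.trans h2 h2'⟩
  · have e1 : MeasurableEmbedding (Subtype.val : Inf → DiscSet) :=
      MeasurableEmbedding.subtype_coe measurableSet_infSet
    have e2 : MeasurableEmbedding (Prod.map (Subtype.val : Inf → DiscSet)
        (Subtype.val : Inf → DiscSet)) := e1.prodMap e1
    have h1 := e2.measurableSet_image.2 (hR1 n).1.2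
    have h2 : Measurable (Prod.map (Subtype.val : NF → DiscSet) (Subtype.val : NF → DiscSet)) :=
      measurable_subtype_coe.prodMap measurable_subtype_coe
    have h3 := h2 h1
    have h4 : {p : NF × NF | Q n p.1 p.2} = {p : NF × NF | relNF p.1 p.2} ∩
        ({p : NF × NF | (p.1.1 : Set ℂ).Finite} ∪
        (Prod.map (Subtype.val : NF → DiscSet) (Subtype.val : NF → DiscSet)) ⁻¹'
        ((Prod.map (Subtype.val : Inf → DiscSet) (Subtype.val : Inf → DiscSet)) ''
        {p : Inf × Inf | R n p.1 p.2})) := by
      ext ⟨x, y⟩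
      simp only [Q, mem_ofPred_eq, mem_inter_iff, mem_union, mem_preimage, mem_image, Prod.exists,
        Prod.map_apply, Prod.mk.injEq]
      constructor
      · rintro ⟨h1, h2⟩
        refine ⟨h1, ?_⟩
        rcases h2 with h2 | ⟨hx, hy, h2⟩
        · exact Or.inl h2
        · exact Or.inr ⟨⟨x.1, hx⟩, ⟨y.1, hy⟩, h2, rfl, rfl⟩
      · rintro ⟨h1, h2⟩
        refine ⟨h1, ?_⟩
        rcases h2 with h2 | ⟨⟨u, hu⟩, ⟨v, hv⟩, h2, rfl, rfl⟩
        · exact Or.inl h2
        · exact Or.inr ⟨hu, hv, h2⟩
    rw [h4]
    refine measurableSet_relNF.inter (MeasurableSet.union ?_ h3)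
    exact measurableSet_setOfPred.2
      (measurable_finite.comp (measurable_subtype_coe.comp measurable_fst))
  · intro x
    by_cases hx : (x.1 : Set ℂ).Finite
    · exact (relNF_finite_class hx).subset (fun y hy => hy.1)
    · have h1 := (hR1 n).2 ⟨x.1, mem_infSet hx⟩
      refine ((h1.image Subtype.val).preimage (f := (Subtype.val : NF → DiscSet))
        Subtype.val_injective.injOn).subset ?_
      rintro y ⟨-, h2⟩
      rcases h2 with h2 | ⟨hx', hy, h2⟩
      · exact absurd h2 hx
      · exact ⟨⟨y.1, hy⟩, h2, rfl⟩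
  · rintro n x y ⟨h1, h2⟩
    refine ⟨h1, ?_⟩
    rcases h2 with h2 | ⟨hx, hy, h2⟩
    · exact Or.inl h2
    · exact Or.inr ⟨hx, hy, hR2 n _ _ h2⟩
  · intro x y
    constructor
    · intro h
      by_cases hx : (x.1 : Set ℂ).Finite
      · exact ⟨0, h, Or.inl hx⟩
      · have hy : ¬ (y.1 : Set ℂ).Finite := fun hy =>
          hx (confRel_finite (relNF_equivalence.symm h) hy)
        have h2 : classRel ⟨x.1, mem_infSet hx⟩ ⟨y.1, mem_infSet hy⟩ :=
          classRel_iff_confRel.2 h
        obtain ⟨n, hn⟩ := (hR3 _ _).1 h2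
        exact ⟨n, h, Or.inr ⟨mem_infSet hx, mem_infSet hy, hn⟩⟩
    · rintro ⟨n, hn⟩
      exact hn.1

/-! ### the reduction to normal forms -/

theorem exists_normalForm (S : DiscSet) :
    ∃ k : ℕ, opA k.unpair.1 k.unpair.2 S ∈ normalForms := by
  rcases (S : Set ℂ).eq_empty_or_nonempty with h | ⟨p, hp⟩
  · obtain ⟨i, j, hij⟩ := exists_opA_eq (S := S) (y := S) (a := 1) (b := 0) one_ne_zero
      (by simp [affImg]) (Or.inl h)
    exact ⟨Nat.pair i j, by
      simp only [Nat.unpair_pair]
      rw [hij]
      exact Or.inl h⟩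
  · obtain ⟨i, hi, hip⟩ := exists_pt (S := S) hp
    by_cases hq : ∃ q ∈ S, q ≠ p
    · obtain ⟨q, hq, hqp⟩ := hq
      obtain ⟨j, hj, hjq⟩ := exists_pt hq
      refine ⟨Nat.pair i j, ?_⟩
      simp only [Nat.unpair_pair]
      rw [opA_eq hi hip hj hjq hqp]
      have hr : q - p ≠ 0 := sub_ne_zero.2 hqp
      right
      right
      rw [mem_aff hr, mem_aff hr]
      refine ⟨?_, ?_⟩
      · simpa using hp
      · simpa using hq
    · push Not at hq
      refine ⟨Nat.pair i i, ?_⟩
      simp only [Nat.unpair_pair]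
      rw [opA_eq_one hi hip]
      right
      left
      ext w
      rw [SetLike.mem_coe, mem_aff one_ne_zero, one_mul]
      constructor
      · intro h
        have := hq _ h
        simpa using this
      · rintro rfl
        simpa using hp

open Classical in
/-- the index of the normal form -/
noncomputable def nfIdx (S : DiscSet) : ℕ := Nat.find (exists_normalForm S)

theorem measurable_nfIdx : Measurable nfIdx := by
  classical
  exact measurable_find _ (fun k => (measurable_opA _ _) measurableSet_normalForms)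

/-- the reduction to normal forms -/
noncomputable def toNF (S : DiscSet) : NF :=
  ⟨opA (nfIdx S).unpair.1 (nfIdx S).unpair.2 S, by
    classical
    exact Nat.find_spec (exists_normalForm S)⟩

theorem measurable_toNF : Measurable toNF := by
  refine Measurable.subtype_mk ?_
  have h2 : Measurable (fun p : DiscSet × ℕ => opA p.2.unpair.1 p.2.unpair.2 p.1) :=
    measurable_from_prod_countable_left (fun k => measurable_opA k.unpair.1 k.unpair.2)
  exact h2.comp (measurable_id.prodMk measurable_nfIdx)

theorem confRel_toNF (S : DiscSet) : confRel S (toNF S).1 := confRel_opA _ _ S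

theorem confRel_iff_toNF (S T : DiscSet) : confRel S T ↔ relNF (toNF S) (toNF T) := by
  have e := confRel_equivalence
  constructor
  · intro h
    exact e.trans (e.symm (confRel_toNF S)) (e.trans h (confRel_toNF T))
  · intro h
    exact e.trans (confRel_toNF S) (e.trans h (e.symm (confRel_toNF T)))

theorem confRel_borel : IsBorelEquiv confRel := by
  refine ⟨confRel_equivalence, ?_⟩
  simp only [confRel_iff_toNF]
  exact (measurable_toNF.prodMap measurable_toNF) measurableSet_relNF

/-- **Main theorem.** Conformal equivalence of complements of discrete closed subsets of the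
plane is essentially hyperfinite. -/
theorem confRel_essentiallyHyperfinite : IsEssentiallyHyperfinite confRel :=
  ⟨confRel_borel, NF, inferInstance, inferInstance, relNF, ⟨relNF_borel, relNF_countable⟩,
    relNF_hyperfinite, ⟨toNF, measurable_toNF, confRel_iff_toNF⟩,
    ⟨Subtype.val, measurable_subtype_coe, fun _ _ => Iff.rfl⟩⟩

end Pool.Agent.MPab4ef0
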