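import Pool.Agent.Lib.MP_ab4ef0_lc.Ops
import Pool.Agent.Lib.MP_ab4ef0_lc.Abstract

/-!
Infinite normal forms, and the Borel map going up in scale.
-/

namespace Pool.Agent.MPab4ef0

open Set Filter Topology Function

open DiscSet

/-- infinite normal forms -/
def infSet : Set DiscSet := {S | (0 : ℂ) ∈ S ∧ (1 : ℂ) ∈ S ∧ (S : Set ℂ).Infinite}

theorem measurableSet_infSet : MeasurableSet infSet := by
  refine measurableSet_setOfPred.2 (Measurable.and ?_ (Measurable.and ?_ ?_))
  · exact measurable_mem measurable_id measurable_const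
  · exact measurable_mem measurable_id measurable_const
  · exact measurable_finite.not

/-- the space of infinite normal forms -/
abbrev Inf : Type := infSet

instance : StandardBorelSpace Inf := measurableSet_infSet.standardBorel

theorem infinite_aff {p r : ℂ} (hr : r ≠ 0) {S : DiscSet} (hS : (S : Set ℂ).Infinite) :
    (aff p r S : Set ℂ).Infinite := by
  intro h
  apply hS
  refine (h.image (fun w => p + r * w)).subset ?_
  intro z hz
  refine ⟨(z - p) / r, ?_, ?_⟩
  · rw [SetLike.mem_coe, mem_aff hr]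
    have : p + r * ((z - p) / r) = z := by
      field_simp
      ring
    rwa [this]
  · simp only
    field_simp
    ring

open Classical in
/-- normal form of `T` with respect to the pair `(p, q)` -/
noncomputable def nf (T : Inf) (p q : ℂ) : Inf :=
  if h : p ∈ T.1 ∧ q ∈ T.1 ∧ p ≠ q then
    ⟨aff p (q - p) T.1, by
      have hr : q - p ≠ 0 := sub_ne_zero.2 (Ne.symm h.2.2)
      refine ⟨?_, ?_, infinite_aff hr T.2.2.2⟩
      · rw [mem_aff hr]; simpa using h.1
      · rw [mem_aff hr]; simpa using h.2.1⟩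
  else T

theorem nf_val {T : Inf} {p q : ℂ} (hp : p ∈ T.1) (hq : q ∈ T.1) (hpq : p ≠ q) :
    (nf T p q).1 = aff p (q - p) T.1 := by
  unfold nf
  rw [dif_pos ⟨hp, hq, hpq⟩]

theorem nf_of_not {T : Inf} {p q : ℂ} (h : ¬ (p ∈ T.1 ∧ q ∈ T.1 ∧ p ≠ q)) :
    nf T p q = T := by
  unfold nf
  rw [dif_neg h]

theorem mem_nf {T : Inf} {p q : ℂ} (hp : p ∈ T.1) (hq : q ∈ T.1) (hpq : p ≠ q) {w : ℂ} :
    w ∈ (nf T p q).1 ↔ p + (q - p) * w ∈ T.1 := by
  rw [nf_val hp hq hpq, mem_aff (sub_ne_zero.2 hpq.symm)]

theorem nf_zero_one (T : Inf) : nf T 0 1 = T := by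
  apply Subtype.ext
  rw [nf_val T.2.1 T.2.2.1 zero_ne_one, sub_zero, aff_zero_one]

theorem nf_nf {T : Inf} {p q : ℂ} (hp : p ∈ T.1) (hq : q ∈ T.1) (hpq : p ≠ q) {u v : ℂ}
    (hu : u ∈ (nf T p q).1) (hv : v ∈ (nf T p q).1) (huv : u ≠ v) :
    nf (nf T p q) u v = nf T (p + (q - p) * u) (p + (q - p) * v) := by
  have hr : q - p ≠ 0 := sub_ne_zero.2 hpq.symm
  apply Subtype.ext
  rw [nf_val hu hv huv, nf_val ((mem_nf hp hq hpq).1 hu) ((mem_nf hp hq hpq).1 hv), nf_val hp hq hpq,
    aff_aff hr (sub_ne_zero.2 huv.symm)]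
  · congr 1
    ring
  · intro h
    exact huv (aff_injective p hr h)

theorem measurable_nf {p q : Inf → ℂ} (hp : Measurable p) (hq : Measurable q) :
    Measurable (fun T => nf T (p T) (q T)) := by
  classical
  refine measurable_comap_iff.2 ?_
  have h1 : (Subtype.val ∘ fun T : Inf => nf T (p T) (q T)) =
      fun T : Inf => if p T ∈ T.1 ∧ q T ∈ T.1 ∧ p T ≠ q T then aff (p T) (q T - p T) T.1 else T.1 := by
    funext T
    simp only [comp_apply]
    by_cases h : p T ∈ T.1 ∧ q T ∈ T.1 ∧ p T ≠ q T
    · rw [if_pos h, nf_val h.1 h.2.1 h.2.2]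
    · rw [if_neg h, nf_of_not h]
  rw [h1]
  refine Measurable.ite ?_ ?_ measurable_subtype_coe
  · refine measurableSet_setOfPred.2 (Measurable.and ?_ (Measurable.and ?_ ?_))
    · exact measurable_mem measurable_subtype_coe hp
    · exact measurable_mem measurable_subtype_coe hq
    · exact (Measurable.eq hp hq).not
  · -- measurability of `T ↦ aff (p T) (q T - p T) T.1`
    refine measurable_of_inter (fun U hU => ?_)
    have h2 : {T : Inf | ((aff (p T) (q T - p T) T.1 : Set ℂ) ∩ U).Nonempty} =
        {T : Inf | (q T - p T = 0 ∧ ((T.1 : Set ℂ) ∩ U).Nonempty) ∨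
          (q T - p T ≠ 0 ∧ ∃ z ∈ T.1, (z - p T) / (q T - p T) ∈ U)} := by
      ext T
      simp only [mem_ofPred_eq]
      by_cases h : q T - p T = 0
      · simp [h, aff_zero]
      · simp only [h, false_and, ne_eq, not_false_eq_true, true_and, false_or]
        constructor
        · rintro ⟨w, hw, hwU⟩
          rw [SetLike.mem_coe, mem_aff h] at hw
          refine ⟨_, hw, ?_⟩
          have : (p T + (q T - p T) * w - p T) / (q T - p T) = w := by
            field_simp
            ring
          rwa [this]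
        · rintro ⟨z, hz, hzU⟩
          refine ⟨(z - p T) / (q T - p T), ?_, hzU⟩
          rw [SetLike.mem_coe, mem_aff h]
          have : p T + (q T - p T) * ((z - p T) / (q T - p T)) = z := by
            field_simp
            ring
          rwa [this]
    rw [h2]
    refine measurableSet_setOfPred.2 (Measurable.or (Measurable.and ?_ ?_) (Measurable.and ?_ ?_))
    · exact Measurable.eq (hq.sub hp) measurable_const
    · exact measurableSet_setOfPred.1 (measurable_subtype_coe (measurableSet_inter hU))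
    · exact (Measurable.eq (hq.sub hp) measurable_const).not
    · refine measurable_exists_mem measurable_subtype_coe
        (p := fun T z => (z - p T) / (q T - p T) ∈ U) ?_
      have : Measurable (fun x : Inf × ℂ => (x.2 - p x.1) / (q x.1 - p x.1)) :=
        (measurable_snd.sub (hp.comp measurable_fst)).div ((hq.sub hp).comp measurable_fst)
      exact measurableSet_setOfPred.1 (this hU.measurableSet)

/-- the `i`-th point of an infinite normal form -/
noncomputable def e (i : ℕ) (T : Inf) : ℂ := pt i T.1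

theorem measurable_e (i : ℕ) : Measurable (e i) := (measurable_pt i).comp measurable_subtype_coe

theorem e_mem (i : ℕ) (T : Inf) : e i T ∈ T.1 := by
  unfold e
  by_cases h : val T.1 i
  · exact pt_mem h
  · rw [pt_of_not h]; exact T.2.1

theorem exists_e {T : Inf} {z : ℂ} (hz : z ∈ T.1) : ∃ i, e i T = z := by
  obtain ⟨i, -, hi⟩ := exists_pt hz
  exact ⟨i, hi⟩

/-- the `k`-th element of the class -/
noncomputable def H (k : ℕ) (T : Inf) : Inf := nf T (e k.unpair.1 T) (e k.unpair.2 T)

theorem measurable_H (k : ℕ) : Measurable (H k) := measurable_nf (measurable_e _) (measurable_e _)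

theorem exists_H {T : Inf} {p q : ℂ} (hp : p ∈ T.1) (hq : q ∈ T.1) :
    ∃ k : ℕ, e k.unpair.1 T = p ∧ e k.unpair.2 T = q := by
  obtain ⟨i, hi⟩ := exists_e hp
  obtain ⟨j, hj⟩ := exists_e hq
  exact ⟨Nat.pair i j, by simp [hi], by simp [hj]⟩

/-! ### closeness -/

/-- the condition on a pair to be close to `(0, 1)` -/
def Near (p q : ℂ) : Prop :=
  p ≠ q ∧ ‖p‖ ≤ 1 ∧ ‖p‖ ≤ ‖q - p‖ ∧ ‖q - p‖ ≤ 2 ∧ 1 ≤ 2 * ‖q - p‖

/-- `T'` is the normal form of `T` with respect to a pair close to `(0, 1)` -/
def Close (T T' : Inf) : Prop := ∃ p ∈ T.1, ∃ q ∈ T.1, Near p q ∧ T' = nf T p q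

theorem near_zero_one : Near 0 1 := by
  refine ⟨zero_ne_one, ?_, ?_, ?_, ?_⟩ <;> simp

theorem close_refl (T : Inf) : Close T T :=
  ⟨0, T.2.1, 1, T.2.2.1, near_zero_one, (nf_zero_one T).symm⟩

/-- pulling back points of `T` to the normal form -/
theorem pull_mem {T : Inf} {p q : ℂ} (hp : p ∈ T.1) (hq : q ∈ T.1) (hpq : p ≠ q) {u : ℂ}
    (hu : u ∈ T.1) : (u - p) / (q - p) ∈ (nf T p q).1 := by
  have hr : q - p ≠ 0 := sub_ne_zero.2 hpq.symm
  rw [mem_nf hp hq hpq]
  have : p + (q - p) * ((u - p) / (q - p)) = u := by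
    field_simp
    ring
  rwa [this]

theorem nf_nf_pull {T : Inf} {p q : ℂ} (hp : p ∈ T.1) (hq : q ∈ T.1) (hpq : p ≠ q) {u v : ℂ}
    (hu : u ∈ T.1) (hv : v ∈ T.1) (huv : u ≠ v) :
    nf (nf T p q) ((u - p) / (q - p)) ((v - p) / (q - p)) = nf T u v := by
  have hr : q - p ≠ 0 := sub_ne_zero.2 hpq.symm
  have e1 : ∀ u, p + (q - p) * ((u - p) / (q - p)) = u := by
    intro u
    field_simp
    ring
  rw [nf_nf hp hq hpq (pull_mem hp hq hpq hu) (pull_mem hp hq hpq hv), e1, e1]
  intro h
  apply huv
  rw [← e1 u, ← e1 v, h]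

theorem close_symm {T T' : Inf} (h : Close T T') : Close T' T := by
  obtain ⟨p, hp, q, hq, ⟨hpq, h1, h2, h3, h4⟩, rfl⟩ := h
  have hr : q - p ≠ 0 := sub_ne_zero.2 hpq.symm
  have hr' : 0 < ‖q - p‖ := norm_pos_iff.2 hr
  refine ⟨(0 - p) / (q - p), pull_mem hp hq hpq T.2.1, (1 - p) / (q - p),
    pull_mem hp hq hpq T.2.2.1, ⟨?_, ?_, ?_, ?_, ?_⟩, ?_⟩
  · intro h
    rw [div_left_inj' hr] at h
    have h0 : (0 : ℂ) = 1 := by linear_combination h
    exact zero_ne_one h0
  · rw [norm_div, div_le_one hr', zero_sub, norm_neg]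
    exact h2
  all_goals try rw [← sub_div, norm_div]
  · rw [norm_div]
    gcongr
    simpa using h1
  · rw [div_le_iff₀ hr']
    simpa using h4
  · rw [← mul_div_assoc, le_div_iff₀ hr']
    simpa using h3
  · rw [nf_nf_pull hp hq hpq T.2.1 T.2.2.1 zero_ne_one, nf_zero_one]

theorem close_finite (T : Inf) : {T' | Close T T'}.Finite := by
  have h1 := (T.1.finite_inter 3).prod (T.1.finite_inter 3)
  refine (h1.image (fun x => nf T x.1 x.2)).subset ?_
  rintro T' ⟨p, hp, q, hq, ⟨hpq, h1, h2, h3, h4⟩, rfl⟩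
  refine ⟨(p, q), ⟨⟨hp, ?_⟩, ⟨hq, ?_⟩⟩, rfl⟩
  · rw [mem_closedBall_zero_iff]
    linarith
  · rw [mem_closedBall_zero_iff]
    calc ‖q‖ = ‖(q - p) + p‖ := by ring_nf
      _ ≤ ‖q - p‖ + ‖p‖ := norm_add_le _ _
      _ ≤ 3 := by linarith

theorem measurable_near {p q : Inf → ℂ} (hp : Measurable p) (hq : Measurable q) :
    Measurable (fun T => Near (p T) (q T)) := by
  unfold Near
  refine Measurable.and (Measurable.eq hp hq).not (Measurable.and ?_ (Measurable.and ?_
    (Measurable.and ?_ ?_)))
  · exact measurableSet_setOfPred.1 (measurableSet_le hp.norm measurable_const)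
  · exact measurableSet_setOfPred.1 (measurableSet_le hp.norm (hq.sub hp).norm)
  · exact measurableSet_setOfPred.1 (measurableSet_le (hq.sub hp).norm measurable_const)
  · exact measurableSet_setOfPred.1 (measurableSet_le measurable_const
      ((hq.sub hp).norm.const_mul 2))

theorem measurable_forall_close {P : Inf → Inf → Prop}
    (hP : Measurable (fun x : Inf × Inf => P x.1 x.2)) :
    Measurable (fun T => ∀ T', Close T T' → P T T') := by
  have h1 : ∀ T, (∀ T', Close T T' → P T T') ↔
      ∀ i j, Near (e i T) (e j T) → P T (nf T (e i T) (e j T)) := by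
    intro T
    constructor
    · intro h i j hn
      exact h _ ⟨_, e_mem i T, _, e_mem j T, hn, rfl⟩
    · rintro h _ ⟨p, hp, q, hq, hn, rfl⟩
      obtain ⟨i, rfl⟩ := exists_e hp
      obtain ⟨j, rfl⟩ := exists_e hq
      exact h i j hn
  simp only [h1]
  refine Measurable.forall fun i => Measurable.forall fun j => Measurable.imp
    (measurable_near (measurable_e i) (measurable_e j)) ?_
  exact hP.comp (measurable_id.prodMk (measurable_nf (measurable_e i) (measurable_e j)))

/-! ### a proper colouring of the closeness graph -/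

/-- a Borel injection into the reals -/
noncomputable def iota : Inf → ℝ := MeasureTheory.embeddingReal Inf

theorem measurable_iota : Measurable iota := MeasureTheory.measurable_embeddingReal Inf

theorem iota_injective : Injective iota :=
  (MeasureTheory.measurableEmbedding_embeddingReal Inf).injective

theorem exists_sep (T : Inf) :
    ∃ n : ℕ, ∀ T', Close T T' → (T' ≠ T → 1 < ((n : ℝ) + 1) * |iota T - iota T'|) := by
  classical
  have h1 : ∀ T', ∃ n : ℕ, T' ≠ T → 1 < ((n : ℝ) + 1) * |iota T - iota T'| := by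
    intro T'
    by_cases h : T' = T
    · exact ⟨0, fun h' => absurd h h'⟩
    · have h2 : 0 < |iota T - iota T'| := abs_pos.2 (sub_ne_zero.2 (fun h3 => h
        (iota_injective h3).symm))
      obtain ⟨n, hn⟩ := exists_nat_gt (1 / |iota T - iota T'|)
      refine ⟨n, fun _ => ?_⟩
      rw [div_lt_iff₀ h2] at hn
      nlinarith
  choose nn hnn using h1
  refine ⟨(close_finite T).toFinset.sup nn, fun T' hT' hne => ?_⟩
  have h2 : nn T' ≤ (close_finite T).toFinset.sup nn :=
    Finset.le_sup (f := nn) ((close_finite T).mem_toFinset.2 hT')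
  refine (hnn T' hne).trans_le ?_
  have h3 : (nn T' : ℝ) ≤ ((close_finite T).toFinset.sup nn : ℕ) := by exact_mod_cast h2
  gcongr

open Classical in
/-- separation index -/
noncomputable def sepIdx (T : Inf) : ℕ := Nat.find (exists_sep T)

theorem measurable_sepIdx : Measurable sepIdx := by
  classical
  unfold sepIdx
  refine measurable_find _ (fun k => ?_)
  refine measurableSet_setOfPred.2 (measurable_forall_close (P := fun T T' =>
    T' ≠ T → 1 < ((k : ℝ) + 1) * |iota T - iota T'|) ?_)
  refine Measurable.imp (Measurable.eq measurable_snd measurable_fst).not ?_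
  have m : Measurable (fun x : Inf × Inf => |iota x.1 - iota x.2|) := by
    have := (measurable_iota.comp (measurable_fst (α := Inf) (β := Inf))).sub
      (measurable_iota.comp (measurable_snd (α := Inf) (β := Inf)))
    exact this.abs
  exact measurableSet_setOfPred.1 (measurableSet_lt measurable_const (m.const_mul _))

/-- the colour -/
noncomputable def col (T : Inf) : ℕ :=
  Encodable.encode ((sepIdx T, ⌊((sepIdx T : ℝ) + 1) * iota T⌋) : ℕ × ℤ)

theorem measurable_col : Measurable col := by
  unfold col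
  refine (measurable_from_top (f := fun x : ℕ × ℤ => Encodable.encode x)).comp ?_
  have h1 : Measurable (fun T : Inf => ((sepIdx T, ⌊((sepIdx T : ℝ) + 1) * iota T⌋) : ℕ × ℤ)) := by
    refine measurable_sepIdx.prodMk (Measurable.floor ?_)
    refine Measurable.mul (Measurable.add ?_ measurable_const) measurable_iota
    exact (measurable_from_top (f := fun n : ℕ => (n : ℝ))).comp measurable_sepIdx
  convert h1
  exact (MeasurableSpace.ext_iff.2 (fun s => by
    constructor
    · intro _; exact (Set.to_countable s).measurableSet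
    · intro _; trivial))

theorem col_proper {T T' : Inf} (h : Close T T') (hne : T' ≠ T) : col T ≠ col T' := by
  classical
  intro he
  have h1 := Encodable.encode_injective he
  simp only [Prod.mk.injEq] at h1
  obtain ⟨h1, h2⟩ := h1
  have h3 := Nat.find_spec (exists_sep T) T' h hne
  have h4 : (1 : ℝ) < ((sepIdx T : ℝ) + 1) * |iota T - iota T'| := h3
  rw [← h1] at h2
  have h5 := Int.abs_sub_lt_one_of_floor_eq_floor h2
  rw [← mul_sub, abs_mul, abs_of_nonneg (by positivity : (0 : ℝ) ≤ (sepIdx T : ℝ) + 1)] at h5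
  linarith

/-! ### the Borel maximal separated set -/

/-- greedy construction along the colours -/
def Mn : ℕ → Set Inf
  | 0 => ∅
  | (n + 1) => Mn n ∪ {T | col T = n ∧ ∀ T', Close T T' → T' ∉ Mn n}

/-- the maximal separated set -/
def M : Set Inf := ⋃ n, Mn n

theorem measurableSet_Mn (n : ℕ) : MeasurableSet (Mn n) := by
  induction n with
  | zero => exact MeasurableSet.empty
  | succ n ih =>
    refine ih.union (measurableSet_setOfPred.2 (Measurable.and ?_ ?_))
    · exact Measurable.eq measurable_col measurable_const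
    · refine measurable_forall_close (P := fun _ T' => T' ∉ Mn n) ?_
      exact (measurableSet_setOfPred.1 (measurable_snd ih)).not

theorem measurableSet_M : MeasurableSet M := MeasurableSet.iUnion measurableSet_Mn

theorem Mn_mono : Monotone Mn := monotone_nat_of_le_succ (fun _ => subset_union_left)

theorem Mn_indep (n : ℕ) : ∀ T ∈ Mn n, ∀ T' ∈ Mn n, Close T T' → T' = T := by
  induction n with
  | zero => intro T hT; exact absurd hT (notMem_empty T)
  | succ n ih =>
    rintro T (hT | ⟨hc, hT⟩) T' (hT' | ⟨hc', hT'⟩) hcl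
    · exact ih T hT T' hT' hcl
    · exact absurd hT (hT' T (close_symm hcl))
    · exact absurd hT' (hT T' hcl)
    · by_contra hne
      exact col_proper hcl hne (hc.trans hc'.symm)

theorem M_indep {T T' : Inf} (hT : T ∈ M) (hT' : T' ∈ M) (h : Close T T') : T' = T := by
  obtain ⟨n, hn⟩ := mem_iUnion.1 hT
  obtain ⟨m, hm⟩ := mem_iUnion.1 hT'
  exact Mn_indep (max n m) T (Mn_mono (le_max_left _ _) hn) T' (Mn_mono (le_max_right _ _) hm) h

theorem M_maximal (T : Inf) : ∃ T' ∈ M, Close T T' := by
  by_cases h : ∀ T', Close T T' → T' ∉ Mn (col T)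
  · exact ⟨T, mem_iUnion.2 ⟨col T + 1, Or.inr ⟨rfl, h⟩⟩, close_refl T⟩
  · push Not at h
    obtain ⟨T', h1, h2⟩ := h
    exact ⟨T', mem_iUnion.2 ⟨_, h2⟩, h1⟩

end Pool.Agent.MPab4ef0
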