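import Pool.Agent.Lib.MP_ab4ef0_lc.Space
import Pool.Agent.Lib.MP_ab4ef0_lc.Conf

/-!
Affine maps and inversions on the space of discrete sets.
-/

namespace Pool.Agent.MPab4ef0

open Set Filter Topology Function

namespace DiscSet

theorem finite_inter' (S : DiscSet) (c : ℂ) (R : ℝ) :
    ((S : Set ℂ) ∩ Metric.closedBall c R).Finite := by
  refine (S.finite_inter (‖c‖ + R)).subset ?_
  rintro z ⟨hz1, hz2⟩
  refine ⟨hz1, ?_⟩
  rw [mem_closedBall_zero_iff]
  rw [Metric.mem_closedBall, dist_eq_norm] at hz2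
  calc ‖z‖ = ‖c + (z - c)‖ := by ring_nf
    _ ≤ ‖c‖ + ‖z - c‖ := norm_add_le _ _
    _ ≤ ‖c‖ + R := by linarith

theorem aff_injective (p : ℂ) {r : ℂ} (hr : r ≠ 0) : Injective (fun w : ℂ => p + r * w) := by
  intro a b h
  simp only [add_right_inj] at h
  exact mul_left_cancel₀ hr h

open Classical in
/-- The set `{w | p + r w ∈ S}`, i.e. `(S - p) / r`, for `r ≠ 0`; `S` itself for `r = 0`. -/
noncomputable def aff (p r : ℂ) (S : DiscSet) : DiscSet :=
  if h : r = 0 then S else ofLocFin {w | p + r * w ∈ S} (by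
    intro R
    refine Set.Finite.subset (Set.Finite.preimage (aff_injective p h).injOn
      (S.finite_inter (‖p‖ + ‖r‖ * R))) ?_
    rintro w ⟨hw1, hw2⟩
    refine ⟨hw1, ?_⟩
    rw [mem_closedBall_zero_iff] at hw2 ⊢
    calc ‖p + r * w‖ ≤ ‖p‖ + ‖r * w‖ := norm_add_le _ _
      _ ≤ ‖p‖ + ‖r‖ * R := by
        rw [norm_mul]
        gcongr)

theorem aff_zero (p : ℂ) (S : DiscSet) : aff p 0 S = S := by
  simp [aff]

theorem mem_aff {p r : ℂ} {S : DiscSet} (hr : r ≠ 0) {w : ℂ} :
    w ∈ aff p r S ↔ p + r * w ∈ S := by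
  unfold aff
  rw [dif_neg hr]
  rfl

theorem aff_aff {p r p' r' : ℂ} (hr : r ≠ 0) (hr' : r' ≠ 0) (S : DiscSet) :
    aff p' r' (aff p r S) = aff (p + r * p') (r * r') S := by
  apply SetLike.ext
  intro w
  rw [mem_aff hr', mem_aff hr, mem_aff (mul_ne_zero hr hr')]
  have : p + r * (p' + r' * w) = p + r * p' + r * r' * w := by ring
  rw [this]

theorem aff_zero_one (S : DiscSet) : aff 0 1 S = S := by
  apply SetLike.ext
  intro w
  rw [mem_aff one_ne_zero]
  simp

theorem coe_aff_eq_affImg {a b : ℂ} (ha : a ≠ 0) (S : DiscSet) :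
    ((aff (-b / a) a⁻¹ S : DiscSet) : Set ℂ) = affImg a b S := by
  ext w
  rw [SetLike.mem_coe, mem_aff (inv_ne_zero ha)]
  unfold affImg
  constructor
  · intro h
    refine ⟨_, h, ?_⟩
    simp only
    field_simp
    ring
  · rintro ⟨z, hz, rfl⟩
    have : -b / a + a⁻¹ * (a * z + b) = z := by
      field_simp
      ring
    rw [this]
    exact hz

theorem measurable_aff {p r : DiscSet → ℂ} (hp : Measurable p) (hr : Measurable r) :
    Measurable (fun S => aff (p S) (r S) S) := by
  refine measurable_of_inter (fun U hU => ?_)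
  have h1 : {S : DiscSet | ((aff (p S) (r S) S : Set ℂ) ∩ U).Nonempty} =
      {S : DiscSet | (r S = 0 ∧ ((S : Set ℂ) ∩ U).Nonempty) ∨
        (r S ≠ 0 ∧ ∃ z ∈ S, (z - p S) / r S ∈ U)} := by
    ext S
    simp only [mem_ofPred_eq]
    by_cases h : r S = 0
    · simp [h, aff_zero]
    · simp only [h, false_and, ne_eq, not_false_eq_true, true_and, false_or]
      constructor
      · rintro ⟨w, hw, hwU⟩
        rw [SetLike.mem_coe, mem_aff h] at hw
        refine ⟨_, hw, ?_⟩
        have : (p S + r S * w - p S) / r S = w := by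
          field_simp
          ring
        rwa [this]
      · rintro ⟨z, hz, hzU⟩
        refine ⟨(z - p S) / r S, ?_, hzU⟩
        rw [SetLike.mem_coe, mem_aff h]
        have : p S + r S * ((z - p S) / r S) = z := by
          field_simp
          ring
        rwa [this]
  rw [h1]
  refine measurableSet_setOfPred.2 (Measurable.or (Measurable.and ?_ ?_) (Measurable.and ?_ ?_))
  · exact Measurable.eq hr measurable_const
  · exact measurableSet_setOfPred.1 (measurableSet_inter hU)
  · exact (Measurable.eq hr measurable_const).not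
  · refine measurable_exists_mem measurable_id (p := fun S z => (z - p S) / r S ∈ U) ?_
    have : Measurable (fun q : DiscSet × ℂ => (q.2 - p q.1) / r q.1) :=
      (measurable_snd.sub (hp.comp measurable_fst)).div (hr.comp measurable_fst)
    exact measurableSet_setOfPred.1 (this hU.measurableSet)

theorem finite_iff (S : DiscSet) : (S : Set ℂ).Finite ↔ ∃ R : ℕ, ∀ z ∈ S, ‖z‖ ≤ R := by
  constructor
  · intro h
    obtain ⟨R, hR⟩ := h.isBounded.exists_norm_le
    obtain ⟨N, hN⟩ := exists_nat_ge R
    exact ⟨N, fun z hz => (hR z hz).trans hN⟩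
  · rintro ⟨R, hR⟩
    refine (S.finite_inter R).subset ?_
    intro z hz
    exact ⟨hz, by rw [mem_closedBall_zero_iff]; exact hR z hz⟩

theorem measurable_finite : Measurable (fun S : DiscSet => (S : Set ℂ).Finite) := by
  simp only [finite_iff]
  refine Measurable.exists fun R => ?_
  refine measurable_forall_mem measurable_id (p := fun _ z => ‖z‖ ≤ R) ?_
  exact measurableSet_setOfPred.1 (measurableSet_le measurable_snd.norm measurable_const)

/-- the set `{1/(t - s) : t ∈ S ∪ {∞}, t ≠ s}` -/
def invSet (s : ℂ) (S : Set ℂ) : Set ℂ := {w | s + w⁻¹ ∈ S}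

theorem invSet_finite (s : ℂ) {S : Set ℂ} (h : S.Finite) : (invSet s S).Finite := by
  refine Set.Finite.preimage (Injective.injOn ?_) h
  intro a b hab
  simpa using hab

theorem invImg_eq {s A B : ℂ} {S : Set ℂ} (hs : s ∈ S) (hB : B ≠ 0) :
    invImg s A B S = affImg B A (invSet s S) := by
  ext w
  unfold invImg affImg invSet
  constructor
  · rintro (rfl | ⟨t, ⟨ht, hts⟩, rfl⟩)
    · exact ⟨0, by simpa using hs, by simp⟩
    · have hts' : t - s ≠ 0 := sub_ne_zero.2 hts
      refine ⟨(t - s)⁻¹, ?_, ?_⟩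
      · simpa using ht
      · simp only
        field_simp
        ring
  · rintro ⟨v, hv, rfl⟩
    by_cases hv0 : v = 0
    · left
      simp [hv0]
    · right
      refine ⟨s + v⁻¹, ⟨hv, ?_⟩, ?_⟩
      · simpa using hv0
      · simp only
        have : s + v⁻¹ - s = v⁻¹ := by ring
        rw [this]
        field_simp
        ring

open Classical in
/-- inversion at the point `s` for finite `S ∋ s` -/
noncomputable def inv (s : ℂ) (S : DiscSet) : DiscSet :=
  if h : (S : Set ℂ).Finite ∧ s ∈ S then
    ofLocFin (invSet s S) (fun _ => (invSet_finite s h.1).subset inter_subset_left) else S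

theorem inv_of {s : ℂ} {S : DiscSet} (h : (S : Set ℂ).Finite) (hs : s ∈ S) :
    (inv s S : Set ℂ) = invSet s S := by
  unfold inv
  rw [dif_pos ⟨h, hs⟩]
  rfl

theorem inv_of_not {s : ℂ} {S : DiscSet} (h : ¬ ((S : Set ℂ).Finite ∧ s ∈ S)) :
    inv s S = S := by
  unfold inv
  rw [dif_neg h]

theorem measurable_inv {s : DiscSet → ℂ} (hs : Measurable s) :
    Measurable (fun S => inv (s S) S) := by
  refine measurable_of_inter (fun U hU => ?_)
  have h1 : {S : DiscSet | ((inv (s S) S : Set ℂ) ∩ U).Nonempty} =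
      {S : DiscSet | (((S : Set ℂ).Finite ∧ s S ∈ S) ∧ ∃ z ∈ S, (z - s S)⁻¹ ∈ U) ∨
        (¬ ((S : Set ℂ).Finite ∧ s S ∈ S) ∧ ((S : Set ℂ) ∩ U).Nonempty)} := by
    ext S
    simp only [mem_ofPred_eq]
    by_cases h : (S : Set ℂ).Finite ∧ s S ∈ S
    · simp only [h, and_self, true_and, not_true_eq_false, false_and, or_false]
      rw [inv_of h.1 h.2]
      constructor
      · rintro ⟨w, hw, hwU⟩
        refine ⟨_, hw, ?_⟩
        simpa using hwU
      · rintro ⟨z, hz, hzU⟩
        refine ⟨(z - s S)⁻¹, ?_, hzU⟩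
        simpa [invSet] using hz
    · rw [inv_of_not h]
      simp [h]
  rw [h1]
  have m0 : Measurable (fun S : DiscSet => (S : Set ℂ).Finite ∧ s S ∈ S) :=
    Measurable.and measurable_finite (measurable_mem measurable_id hs)
  refine measurableSet_setOfPred.2 (Measurable.or (Measurable.and m0 ?_) (Measurable.and m0.not ?_))
  · refine measurable_exists_mem measurable_id (p := fun S z => (z - s S)⁻¹ ∈ U) ?_
    have : Measurable (fun q : DiscSet × ℂ => (q.2 - s q.1)⁻¹) :=
      (measurable_snd.sub (hs.comp measurable_fst)).inv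
    exact measurableSet_setOfPred.1 (this hU.measurableSet)
  · exact measurableSet_setOfPred.1 (measurableSet_inter hU)

/-! ### the two families of operations -/

open Classical in
/-- scaling factor of the `(i,j)` normalisation -/
noncomputable def rad (i j : ℕ) (S : DiscSet) : ℂ :=
  if val S i then (if val S j ∧ pt j S ≠ pt i S then pt j S - pt i S else 1) else 0

theorem measurable_rad (i j : ℕ) : Measurable (rad i j) := by
  classical
  unfold rad
  refine Measurable.ite (measurableSet_setOfPred.2 (measurable_val i))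
    (Measurable.ite ?_ ((measurable_pt j).sub (measurable_pt i)) measurable_const) measurable_const
  exact measurableSet_setOfPred.2 (Measurable.and (measurable_val j)
    (Measurable.eq (measurable_pt j) (measurable_pt i)).not)

/-- the `(i,j)` normalisation -/
noncomputable def opA (i j : ℕ) (S : DiscSet) : DiscSet := aff (pt i S) (rad i j S) S

theorem measurable_opA (i j : ℕ) : Measurable (opA i j) :=
  measurable_aff (measurable_pt i) (measurable_rad i j)

open Classical in
/-- inversion at the `l`-th point (if `b = true`) -/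
noncomputable def opJ (b : Bool) (l : ℕ) (S : DiscSet) : DiscSet :=
  if b = true then inv (pt l S) S else S

theorem measurable_opJ (b : Bool) (l : ℕ) : Measurable (opJ b l) := by
  cases b
  · simpa [opJ] using! measurable_id
  · simpa [opJ] using! measurable_inv (measurable_pt l)

theorem opA_eq {i j : ℕ} {S : DiscSet} {p q : ℂ} (hi : val S i) (hip : pt i S = p)
    (hj : val S j) (hjq : pt j S = q) (hpq : q ≠ p) : opA i j S = aff p (q - p) S := by
  subst hip hjq
  unfold opA rad
  rw [if_pos hi, if_pos ⟨hj, hpq⟩]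

theorem opA_eq_one {i : ℕ} {S : DiscSet} {p : ℂ} (hi : val S i) (hip : pt i S = p) :
    opA i i S = aff p 1 S := by
  subst hip
  unfold opA rad
  rw [if_pos hi, if_neg (by simp)]

/-- The set of normal forms. -/
def normalForms : Set DiscSet :=
  {S | (S : Set ℂ) = ∅ ∨ (S : Set ℂ) = {0} ∨ ((0 : ℂ) ∈ S ∧ (1 : ℂ) ∈ S)}

theorem exists_opA_eq {S y : DiscSet} {a b : ℂ} (ha : a ≠ 0)
    (hy : (y : Set ℂ) = affImg a b S) (hyn : y ∈ normalForms) : ∃ i j, opA i j S = y := by
  have hy' : y = aff (-b / a) a⁻¹ S := ext_set (by rw [coe_aff_eq_affImg ha, hy])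
  rcases hyn with h | h | ⟨h0, h1⟩
  · have hS : (S : Set ℂ) = ∅ := by
      rw [hy] at h
      unfold affImg at h
      exact image_eq_empty.1 h
    have hv : ¬ val S 0 := by
      rintro ⟨z, hz⟩
      have : z ∈ (S : Set ℂ) ∩ bas 0 := by rw [hz]; rfl
      rw [hS] at this
      exact this.1
    refine ⟨0, 0, ?_⟩
    apply ext_set
    unfold opA rad
    rw [if_neg hv, aff_zero, hS, h]
  · -- singleton
    have h0 : (0 : ℂ) ∈ (y : Set ℂ) := by rw [h]; rfl
    have hS0 : -b / a ∈ S := by
      rw [hy', SetLike.mem_coe, mem_aff (inv_ne_zero ha)] at h0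
      simpa using h0
    obtain ⟨i, hi, hip⟩ := exists_pt hS0
    refine ⟨i, i, ?_⟩
    rw [opA_eq_one hi hip]
    apply ext_set
    rw [h]
    ext w
    rw [SetLike.mem_coe, mem_aff one_ne_zero]
    constructor
    · intro hw
      have : (a * w) ∈ (y : Set ℂ) := by
        rw [hy', SetLike.mem_coe, mem_aff (inv_ne_zero ha)]
        have : -b / a + a⁻¹ * (a * w) = -b / a + 1 * w := by
          field_simp
        rw [this]
        exact hw
      rw [h] at this
      rcases mul_eq_zero.1 this with h' | h'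
      · exact absurd h' ha
      · exact h'
    · rintro rfl
      simpa using hS0
  · rw [hy', mem_aff (inv_ne_zero ha)] at h0 h1
    obtain ⟨i, hi, hip⟩ := exists_pt h0
    obtain ⟨j, hj, hjq⟩ := exists_pt h1
    refine ⟨i, j, ?_⟩
    have hne : -b / a + a⁻¹ * 1 ≠ -b / a + a⁻¹ * 0 := by
      intro h
      have : a⁻¹ = 0 := by simpa using h
      exact inv_ne_zero ha this
    rw [opA_eq hi hip hj hjq hne, hy']
    congr 1
    · ring
    · ring

end DiscSet

end Pool.Agent.MPab4ef0
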