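import Pool.Agent.Lib.MP_ab4ef0_lc.Climb

/-!
The packing argument and hyperfiniteness on the infinite normal forms.
-/

namespace Pool.Agent.MPab4ef0

open Set Filter Topology Function

open DiscSet

theorem floor_mem {x : ℝ} {a b : ℤ} (h1 : (a : ℝ) ≤ x) (h2 : x ≤ b) :
    ⌊x⌋ ∈ Finset.Icc a b := by
  rw [Finset.mem_Icc]
  constructor
  · exact Int.le_floor.2 h1
  · have := (Int.floor_le x).trans h2
    exact_mod_cast this

theorem mem_boxOf (n m : ℤ) (x y z : ℝ) (h1 : -(n : ℝ) ≤ x ∧ x ≤ n) (h2 : -(n : ℝ) ≤ y ∧ y ≤ n)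
    (h3 : 0 ≤ z ∧ z ≤ m) : (⌊x⌋, ⌊y⌋, ⌊z⌋) ∈
    Finset.Icc (-n) n ×ˢ Finset.Icc (-n) n ×ˢ Finset.Icc 0 m := by
  refine Finset.mem_product.2 ⟨floor_mem ?_ h1.2, Finset.mem_product.2 ⟨floor_mem ?_ h2.2,
    floor_mem ?_ h3.2⟩⟩
  · push_cast; exact h1.1
  · push_cast; exact h2.1
  · push_cast; exact h3.1

theorem exists_box (n m : ℤ) : ∃ B : Finset (ℤ × ℤ × ℤ), ∀ x y z : ℝ, (-(n : ℝ) ≤ x ∧ x ≤ n) →
    (-(n : ℝ) ≤ y ∧ y ≤ n) → (0 ≤ z ∧ z ≤ m) → (⌊x⌋, ⌊y⌋, ⌊z⌋) ∈ B :=
  ⟨_, fun x y z h1 h2 h3 => mem_boxOf n m x y z h1 h2 h3⟩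

/-- the box of cells -/
noncomputable def box : Finset (ℤ × ℤ × ℤ) := (exists_box 272 192).choose

theorem mem_box {x y z : ℝ} (h1 : -272 ≤ x ∧ x ≤ 272) (h2 : -272 ≤ y ∧ y ≤ 272)
    (h3 : 0 ≤ z ∧ z ≤ 192) : (⌊x⌋, ⌊y⌋, ⌊z⌋) ∈ box :=
  (exists_box 272 192).choose_spec x y z (by exact_mod_cast h1) (by exact_mod_cast h2)
    (by exact_mod_cast h3)

/-- every orbit has a mark comparable to the given one -/
theorem exists_comparable {T : Inf} (x y : Mark T) {R : ℝ} (hR : y.r = R)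
    {D : ℝ} (hD : ∀ k, ‖(Mark.next^[k] x).p - y.p‖ ≤ 2 * (Mark.next^[k] x).r + D)
    (hDR : D ≤ 3 * R) (hx : x.next.r ≤ R) :
    ∃ k, 1 ≤ k ∧ R ≤ 8 * (Mark.next^[k] x).r ∧ (Mark.next^[k] x).r ≤ 12 * R ∧
      ‖(Mark.next^[k] x).p - y.p‖ ≤ 17 * R := by
  classical
  have hRpos : 0 < R := hR ▸ y.r_pos
  let m := Nat.find (x.r_large R)
  have hm : R < (Mark.next^[m] x).r := Nat.find_spec (x.r_large R)
  have hm' : ∀ j < m, (Mark.next^[j] x).r ≤ R := fun j hj =>
    not_lt.1 (Nat.find_min (x.r_large R) hj)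
  have hm2 : 2 ≤ m := by
    by_contra h
    push Not at h
    have h1 : (Mark.next^[m] x).r ≤ (Mark.next^[1] x).r := x.r_mono (by omega)
    have h2 : (Mark.next^[1] x).r = x.next.r := rfl
    linarith
  obtain ⟨n, hn⟩ : ∃ n, m = n + 1 := ⟨m - 1, by omega⟩
  have hn1 : 1 ≤ n := by omega
  set a := Mark.next^[n] x with ha
  have har : a.r ≤ R := hm' n (by omega)
  have hap : ‖a.p - y.p‖ ≤ 5 * R := by
    have := hD n
    linarith
  by_cases hA : R ≤ 8 * a.r
  · exact ⟨n, hn1, hA, by linarith, by linarith⟩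
  · push Not at hA
    -- find a point of `T` at distance between `R/2` and `6 R` of `a.p`
    have hs : ∃ s ∈ T.1, R ≤ 2 * ‖s - a.p‖ ∧ ‖s - a.p‖ ≤ 6 * R := by
      by_cases h1 : R ≤ 2 * ‖y.p - a.p‖
      · refine ⟨y.p, y.hp, h1, ?_⟩
        rw [norm_sub_rev]
        linarith
      · push Not at h1
        refine ⟨y.q, y.hq, ?_, ?_⟩
        · have h2 : y.r ≤ ‖y.q - a.p‖ + ‖y.p - a.p‖ := by
            have : y.q - y.p = (y.q - a.p) - (y.p - a.p) := by ring
            unfold Mark.r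
            rw [this]
            exact norm_sub_le _ _
          rw [hR] at h2
          linarith
        · have h2 : ‖y.q - a.p‖ ≤ y.r + ‖y.p - a.p‖ := by
            have : y.q - a.p = (y.q - y.p) + (y.p - a.p) := by ring
            unfold Mark.r
            rw [this]
            exact norm_add_le _ _
          rw [hR] at h2
          linarith
    obtain ⟨s, hsT, hs1, hs2⟩ := hs
    have h3 := a.next_min s hsT (by linarith)
    have h4 : Mark.next^[n + 1] x = a.next := by rw [iterate_succ_apply', ha]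
    have h5 := a.next_p
    refine ⟨n + 1, by omega, ?_, ?_, ?_⟩
    · rw [← hn]
      linarith
    · rw [h4]
      linarith
    · rw [h4]
      calc ‖a.next.p - y.p‖ = ‖(a.next.p - a.p) + (a.p - y.p)‖ := by ring_nf
        _ ≤ ‖a.next.p - a.p‖ + ‖a.p - y.p‖ := norm_add_le _ _
        _ ≤ 17 * R := by linarith

theorem packing {T : Inf} {ι : Type} [Fintype ι] [DecidableEq ι] (hι : box.card < Fintype.card ι)
    (x : ι → Mark T) : ∃ i j, i ≠ j ∧ TailEq climb (x i).form (x j).form := by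
  classical
  have hne : Nonempty ι := by
    by_contra h
    rw [not_nonempty_iff] at h
    rw [Fintype.card_eq_zero] at hι
    omega
  obtain ⟨i0⟩ := hne
  set x0 := x i0 with hx0
  -- a bound
  obtain ⟨D, hD⟩ : ∃ D : ℝ, ∀ i, ‖(x i).p - x0.p‖ ≤ D ∧ (x i).next.r ≤ D := by
    refine ⟨∑ i, (‖(x i).p - x0.p‖ + (x i).next.r), fun i => ?_⟩
    have h1 : ‖(x i).p - x0.p‖ + (x i).next.r ≤ ∑ i, (‖(x i).p - x0.p‖ + (x i).next.r) :=
      Finset.single_le_sum (f := fun i => ‖(x i).p - x0.p‖ + (x i).next.r)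
        (fun j _ => add_nonneg (norm_nonneg _) (x j).next.r_pos.le) (Finset.mem_univ i)
    have h2 := norm_nonneg ((x i).p - x0.p)
    have h3 := (x i).next.r_pos
    constructor <;> linarith
  obtain ⟨N, hN⟩ := x0.r_large D
  set y := Mark.next^[N] x0 with hy
  obtain ⟨R, hR⟩ : ∃ R, y.r = R := ⟨_, rfl⟩
  have hRpos : 0 < R := hR ▸ y.r_pos
  rw [hR] at hN
  have hcomp : ∀ i, ∃ k, 1 ≤ k ∧ R ≤ 8 * (Mark.next^[k] (x i)).r ∧
      (Mark.next^[k] (x i)).r ≤ 12 * R ∧ ‖(Mark.next^[k] (x i)).p - y.p‖ ≤ 17 * R := by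
    intro i
    refine exists_comparable (x i) y hR (D := 3 * R) (fun k => ?_) le_rfl ((hD i).2.trans hN.le)
    have h1 := (x i).p_dist k
    have h2 := (hD i).1
    have h3 : ‖y.p - x0.p‖ ≤ 2 * y.r := x0.p_dist N
    rw [hR] at h3
    calc ‖(Mark.next^[k] (x i)).p - y.p‖
        = ‖((Mark.next^[k] (x i)).p - (x i).p) + ((x i).p - x0.p) - (y.p - x0.p)‖ := by ring_nf
      _ ≤ ‖((Mark.next^[k] (x i)).p - (x i).p) + ((x i).p - x0.p)‖ + ‖y.p - x0.p‖ :=
          norm_sub_le _ _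
      _ ≤ (‖(Mark.next^[k] (x i)).p - (x i).p‖ + ‖(x i).p - x0.p‖) + ‖y.p - x0.p‖ := by
          gcongr
          exact norm_add_le _ _
      _ ≤ _ := by linarith
  choose kk hk1 hk2 hk3 hk4 using hcomp
  let z : ι → Mark T := fun i => Mark.next^[kk i] (x i)
  have hz2 : ∀ i, R ≤ 8 * (z i).r := hk2
  have hz3 : ∀ i, (z i).r ≤ 12 * R := hk3
  have hz4 : ∀ i, ‖(z i).p - y.p‖ ≤ 17 * R := hk4
  let cell : ι → ℤ × ℤ × ℤ := fun i =>
    (⌊16 * ((z i).p - y.p).re / R⌋, ⌊16 * ((z i).p - y.p).im / R⌋, ⌊16 * (z i).r / R⌋)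
  have hcell : ∀ i ∈ (Finset.univ : Finset ι), cell i ∈ box := by
    intro i _
    have h1 := hz4 i
    have hre := (abs_le.1 ((Complex.abs_re_le_norm ((z i).p - y.p)).trans h1))
    have him := (abs_le.1 ((Complex.abs_im_le_norm ((z i).p - y.p)).trans h1))
    have h3 := hz3 i
    have h4 := (z i).r_pos
    refine mem_box ⟨?_, ?_⟩ ⟨?_, ?_⟩ ⟨?_, ?_⟩
    · rw [le_div_iff₀ hRpos]; linarith
    · rw [div_le_iff₀ hRpos]; linarith
    · rw [le_div_iff₀ hRpos]; linarith
    · rw [div_le_iff₀ hRpos]; linarith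
    · rw [le_div_iff₀ hRpos]; linarith
    · rw [div_le_iff₀ hRpos]; linarith
  obtain ⟨i, -, j, -, hij, he⟩ := Finset.exists_ne_map_eq_of_card_lt_of_maps_to
    (s := (Finset.univ : Finset ι)) (t := box) (by rwa [Finset.card_univ]) hcell
  refine ⟨i, j, hij, kk i, kk j, ?_⟩
  rw [Mark.climb_iterate, Mark.climb_iterate]
  change (z i).form = (z j).form
  have hMi : (z i).form ∈ M := (x i).mem_M_of_pos (hk1 i)
  have hMj : (z j).form ∈ M := (x j).mem_M_of_pos (hk1 j)
  simp only [cell, Prod.mk.injEq] at he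
  obtain ⟨e1, e2, e3⟩ := he
  have f1 := Int.abs_sub_lt_one_of_floor_eq_floor e1
  have f2 := Int.abs_sub_lt_one_of_floor_eq_floor e2
  have f3 := Int.abs_sub_lt_one_of_floor_eq_floor e3
  rw [← sub_div, abs_div, abs_of_pos hRpos, div_lt_one hRpos, ← mul_sub, abs_mul] at f1 f2 f3
  rw [abs_of_pos (by norm_num : (0 : ℝ) < 16)] at f1 f2 f3
  have g : ‖(z j).p - (z i).p‖ ≤ R / 8 := by
    have g0 : (z j).p - (z i).p = -(((z i).p - y.p) - ((z j).p - y.p)) := by ring
    rw [g0, norm_neg]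
    have g1 := Complex.norm_le_abs_re_add_abs_im (((z i).p - y.p) - ((z j).p - y.p))
    rw [Complex.sub_re, Complex.sub_im] at g1
    linarith
  have f3' := abs_lt.1 (lt_of_mul_lt_mul_left (a := (16 : ℝ)) (by
    calc 16 * |(z i).r - (z j).r| < R := f3
      _ = 16 * (R / 16) := by ring) (by norm_num))
  have hi2 := hz2 i
  have hj2 := hz2 j
  symm
  refine M_indep hMi hMj (Mark.close_of ?_ ?_ ?_ ?_) <;> linarith

/-- enumeration of the class, starting with the point itself -/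
noncomputable def enum (k : ℕ) (T : Inf) : Inf :=
  match k with
  | 0 => T
  | k + 1 => H k T

theorem measurable_enum (k : ℕ) : Measurable (enum k) := by
  cases k with
  | zero => exact measurable_id
  | succ k => exact measurable_H k

theorem enum_eq_form (k : ℕ) (T : Inf) : ∃ x : Mark T, enum k T = x.form := by
  cases k with
  | zero => exact ⟨base T, (base_form T).symm⟩
  | succ k =>
    by_cases h : e k.unpair.1 T = e k.unpair.2 T
    · refine ⟨base T, ?_⟩
      rw [base_form]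
      show nf T _ _ = T
      exact nf_of_not (fun h' => h'.2.2 h)
    · exact ⟨⟨(e k.unpair.1 T, e k.unpair.2 T), e_mem _ T, e_mem _ T, h⟩, rfl⟩

theorem exists_enum_eq {T : Inf} (x : Mark T) : ∃ k, enum k T = x.form := by
  obtain ⟨k, h1, h2⟩ := exists_H x.hp x.hq
  refine ⟨k + 1, ?_⟩
  show nf T _ _ = nf T _ _
  rw [h1, h2]

theorem finite_index (T : Inf) :
    ∃ N, ∀ j, ∃ i ≤ N, TailEq climb (enum j T) (enum i T) := by
  classical
  by_contra hcon
  push Not at hcon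
  choose J hJ using hcon
  have hJlt : ∀ N, N < J N := by
    intro N
    by_contra h
    push Not at h
    exact hJ N (J N) h (TailEq.refl _ _)
  let s : ℕ → ℕ := fun n => J^[n] 0
  have hs : ∀ n, s (n + 1) = J (s n) := fun n => iterate_succ_apply' J n 0
  have hsm : StrictMono s := strictMono_nat_of_lt_succ (fun n => by rw [hs]; exact hJlt _)
  have hns : ∀ m n, m < n → ¬ TailEq climb (enum (s n) T) (enum (s m) T) := by
    intro m n hmn
    obtain ⟨n, rfl⟩ : ∃ k, n = k + 1 := ⟨n - 1, by omega⟩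
    rw [hs]
    exact hJ (s n) (s m) (hsm.monotone (by omega))
  choose x hx using fun k => enum_eq_form k T
  obtain ⟨i, j, hij, ht⟩ := packing (T := T) (ι := Fin (box.card + 1)) (by simp)
    (fun i => x (s i))
  rw [← hx, ← hx] at ht
  rcases lt_or_gt_of_ne (fun h => hij (Fin.ext h) : (i : ℕ) ≠ j) with h | h
  · exact hns _ _ h ht.symm
  · exact hns _ _ h ht

/-- the class relation on infinite normal forms -/
def classRel (S T : Inf) : Prop := ∃ k, enum k S = T

theorem form_trans {T : Inf} (x : Mark T) (y : Mark x.form) : ∃ z : Mark T, z.form = y.form := by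
  have hu' := (mem_nf x.hp x.hq x.hne).1 y.hp
  have hv' := (mem_nf x.hp x.hq x.hne).1 y.hq
  have hr : x.q - x.p ≠ 0 := sub_ne_zero.2 x.hne.symm
  refine ⟨⟨(x.p + (x.q - x.p) * y.p, x.p + (x.q - x.p) * y.q), hu', hv', ?_⟩, ?_⟩
  · intro h
    exact y.hne (aff_injective x.p hr h)
  · exact (nf_nf x.hp x.hq x.hne y.hp y.hq y.hne).symm

theorem form_symm {T : Inf} (x : Mark T) : ∃ z : Mark x.form, z.form = T := by
  have hr : x.q - x.p ≠ 0 := sub_ne_zero.2 x.hne.symm
  refine ⟨⟨((0 - x.p) / (x.q - x.p), (1 - x.p) / (x.q - x.p)),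
    pull_mem x.hp x.hq x.hne T.2.1, pull_mem x.hp x.hq x.hne T.2.2.1, ?_⟩, ?_⟩
  · intro h
    rw [div_left_inj' hr] at h
    have h0 : (0 : ℂ) = 1 := by linear_combination h
    exact zero_ne_one h0
  · have := nf_nf_pull x.hp x.hq x.hne T.2.1 T.2.2.1 zero_ne_one
    rw [nf_zero_one] at this
    exact this

theorem classRel_iff {S T : Inf} : classRel S T ↔ ∃ x : Mark S, x.form = T := by
  constructor
  · rintro ⟨k, rfl⟩
    obtain ⟨x, hx⟩ := enum_eq_form k S
    exact ⟨x, hx.symm⟩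
  · rintro ⟨x, rfl⟩
    exact exists_enum_eq x

theorem classRel_equivalence : Equivalence classRel := by
  refine ⟨fun S => ⟨0, rfl⟩, ?_, ?_⟩
  · intro S T h
    rw [classRel_iff] at h ⊢
    obtain ⟨x, rfl⟩ := h
    exact form_symm x
  · intro S T U h h'
    rw [classRel_iff] at h h' ⊢
    obtain ⟨x, rfl⟩ := h
    obtain ⟨y, rfl⟩ := h'
    exact form_trans x y

theorem classRel_hyperfinite : IsHyperfinite classRel :=
  hyperfinite_of_tail classRel classRel_equivalence enum measurable_enum (fun _ => rfl)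
    (fun _ _ => Iff.rfl) climb measurable_climb mark measurableSet_mark mark_anti mark_vanish
    mark_rec back_finite finite_index

end Pool.Agent.MPab4ef0
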