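import Pool.Agent.Lib.MP_ab4ef0_lc.Defs

/-!
The standard Borel space of discrete closed subsets of the plane.
-/

namespace Pool.Agent.MPab4ef0

open Set Filter Topology Function

namespace DiscSet

instance : SetLike DiscSet ℂ where
  coe S := (S.closed : Set ℂ)
  coe_injective := by
    rintro ⟨S, hS⟩ ⟨T, hT⟩ h
    simp only at h
    have : S = T := TopologicalSpace.Closeds.ext h
    subst this
    rfl

theorem coe_def (S : DiscSet) : (S : Set ℂ) = (S.closed : Set ℂ) := rfl

theorem notAccPt (S : DiscSet) (z : ℂ) : ¬ AccPt z (𝓟 (S : Set ℂ)) := S.noAcc z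

theorem isClosed (S : DiscSet) : IsClosed (S : Set ℂ) := S.closed.isClosed

theorem finite_inter (S : DiscSet) (R : ℝ) : ((S : Set ℂ) ∩ Metric.closedBall 0 R).Finite := by
  by_contra h
  obtain ⟨x, -, hx⟩ := Set.Infinite.exists_accPt_of_subset_isCompact h
    (isCompact_closedBall (0 : ℂ) R) inter_subset_right
  exact S.notAccPt x (hx.mono (principal_mono.2 inter_subset_left))

theorem not_accPt_of_locFin {S : Set ℂ} (h : ∀ R : ℝ, (S ∩ Metric.closedBall 0 R).Finite)
    (z : ℂ) : ¬ AccPt z (𝓟 S) := by
  intro hz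
  have h1 := hz.nhds_inter (U := Metric.ball z 1) (Metric.ball_mem_nhds z one_pos)
  refine Set.Infinite.of_accPt h1 (Set.Finite.subset (h (‖z‖ + 1)) ?_)
  rintro w ⟨hw1, hw2⟩
  refine ⟨hw2, ?_⟩
  rw [mem_closedBall_zero_iff]
  rw [Metric.mem_ball, dist_eq_norm] at hw1
  calc ‖w‖ = ‖(w - z) + z‖ := by ring_nf
    _ ≤ ‖w - z‖ + ‖z‖ := norm_add_le _ _
    _ ≤ ‖z‖ + 1 := by linarith

/-- constructor from a locally finite set -/
def ofLocFin (S : Set ℂ) (h : ∀ R : ℝ, (S ∩ Metric.closedBall 0 R).Finite) : DiscSet where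
  closed := ⟨S, isClosed_iff_accPt.2 (fun a ha => absurd ha (not_accPt_of_locFin h a))⟩
  noAcc := not_accPt_of_locFin h

@[simp] theorem coe_ofLocFin (S : Set ℂ) (h) : (ofLocFin S h : Set ℂ) = S := rfl

@[simp] theorem mem_ofLocFin (S : Set ℂ) (h) (z : ℂ) : z ∈ ofLocFin S h ↔ z ∈ S := Iff.rfl

theorem ext_set {S T : DiscSet} (h : (S : Set ℂ) = (T : Set ℂ)) : S = T :=
  SetLike.coe_injective h

/-! ### the Borel structure -/

theorem measurableSet_inter {U : Set ℂ} (hU : IsOpen U) :
    MeasurableSet {S : DiscSet | ((S : Set ℂ) ∩ U).Nonempty} := by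
  refine ⟨{F : TopologicalSpace.Closeds ℂ | ((F : Set ℂ) ∩ U).Nonempty}, ?_, rfl⟩
  exact MeasurableSpace.measurableSet_generateFrom ⟨U, hU, rfl⟩

theorem measurable_of_inter {α : Type*} [MeasurableSpace α] {f : α → DiscSet}
    (h : ∀ U : Set ℂ, IsOpen U → MeasurableSet {a | ((f a : Set ℂ) ∩ U).Nonempty}) :
    Measurable f := by
  rw [measurable_comap_iff]
  refine measurable_generateFrom ?_
  rintro _ ⟨U, hU, rfl⟩
  exact h U hU

/-! ### a countable basis and the enumeration -/

theorem exists_basis : ∃ B : ℕ → Set ℂ, TopologicalSpace.IsTopologicalBasis (range B) := by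
  obtain ⟨b, hb, -, hbas⟩ := TopologicalSpace.exists_countable_basis ℂ
  have hne : b.Nonempty := by
    by_contra h
    rw [not_nonempty_iff_eq_empty] at h
    subst h
    have := hbas.sUnion_eq
    simp only [sUnion_empty] at this
    exact (this ▸ mem_univ (0 : ℂ) : (0 : ℂ) ∈ (∅ : Set ℂ))
  obtain ⟨B, hB⟩ := hb.exists_eq_range hne
  exact ⟨B, hB ▸ hbas⟩

/-- a countable basis of the plane -/
noncomputable def bas : ℕ → Set ℂ := exists_basis.choose

theorem bas_spec : TopologicalSpace.IsTopologicalBasis (range bas) := exists_basis.choose_spec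

theorem isOpen_bas (n : ℕ) : IsOpen (bas n) := bas_spec.isOpen (mem_range_self n)

theorem exists_bas {z : ℂ} {U : Set ℂ} (hU : IsOpen U) (hz : z ∈ U) :
    ∃ n, z ∈ bas n ∧ bas n ⊆ U := by
  obtain ⟨_, ⟨n, rfl⟩, h1, h2⟩ := bas_spec.exists_subset_of_mem_open hz hU
  exact ⟨n, h1, h2⟩

/-- `S` has exactly one point in the `n`-th basic open set -/
def val (S : DiscSet) (n : ℕ) : Prop := ∃ z, (S : Set ℂ) ∩ bas n = {z}

open Classical in
/-- the unique point of `S` in the `n`-th basic open set, if there is exactly one, and `0`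
otherwise -/
noncomputable def pt (n : ℕ) (S : DiscSet) : ℂ := if h : val S n then h.choose else 0

theorem pt_spec {S : DiscSet} {n : ℕ} (h : val S n) : (S : Set ℂ) ∩ bas n = {pt n S} := by
  unfold pt
  rw [dif_pos h]
  exact h.choose_spec

theorem pt_of_not {S : DiscSet} {n : ℕ} (h : ¬ val S n) : pt n S = 0 := by
  unfold pt
  rw [dif_neg h]

theorem pt_mem {S : DiscSet} {n : ℕ} (h : val S n) : pt n S ∈ S := by
  have h1 := pt_spec h
  have : pt n S ∈ (S : Set ℂ) ∩ bas n := by rw [h1]; rfl
  exact this.1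

theorem exists_pt {S : DiscSet} {z : ℂ} (hz : z ∈ S) : ∃ n, val S n ∧ pt n S = z := by
  have h1 := S.notAccPt z
  rw [accPt_iff_frequently, not_frequently, eventually_iff_exists_mem] at h1
  obtain ⟨U, hU, h1⟩ := h1
  obtain ⟨V, hVU, hVo, hzV⟩ := mem_nhds_iff.1 hU
  obtain ⟨n, hn, hnV⟩ := exists_bas hVo hzV
  have h2 : (S : Set ℂ) ∩ bas n = {z} := by
    ext w
    constructor
    · rintro ⟨hw1, hw2⟩
      by_contra hne
      exact h1 w (hVU (hnV hw2)) ⟨hne, hw1⟩
    · rintro rfl
      exact ⟨hz, hn⟩
  have h3 : val S n := ⟨z, h2⟩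
  refine ⟨n, h3, ?_⟩
  have h4 := pt_spec h3
  rw [h2] at h4
  exact (singleton_injective h4).symm

theorem measurable_val (n : ℕ) : Measurable (fun S : DiscSet => val S n) := by
  have h1 : ∀ S : DiscSet, val S n ↔ ((S : Set ℂ) ∩ bas n).Nonempty ∧
      ¬ ∃ i j, Disjoint (bas i) (bas j) ∧ ((S : Set ℂ) ∩ (bas n ∩ bas i)).Nonempty ∧
        ((S : Set ℂ) ∩ (bas n ∩ bas j)).Nonempty := by
    intro S
    constructor
    · rintro ⟨z, hz⟩
      refine ⟨by rw [hz]; exact singleton_nonempty z, ?_⟩
      rintro ⟨i, j, hd, ⟨x, hx1, hx2, hx3⟩, ⟨y, hy1, hy2, hy3⟩⟩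
      have hx : x = z := by
        have : x ∈ (S : Set ℂ) ∩ bas n := ⟨hx1, hx2⟩
        rw [hz] at this
        exact this
      have hy : y = z := by
        have : y ∈ (S : Set ℂ) ∩ bas n := ⟨hy1, hy2⟩
        rw [hz] at this
        exact this
      subst hx
      subst hy
      exact Set.disjoint_left.1 hd hx3 hy3
    · rintro ⟨⟨z, hz⟩, h⟩
      refine ⟨z, ?_⟩
      apply Subset.antisymm
      · intro w hw
        by_contra hne
        have hne' : w ≠ z := hne
        obtain ⟨U, V, hU, hV, hwU, hzV, hd⟩ := t2_separation hne'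
        obtain ⟨i, hi, hiU⟩ := exists_bas hU hwU
        obtain ⟨j, hj, hjV⟩ := exists_bas hV hzV
        exact h ⟨i, j, hd.mono hiU hjV, ⟨w, hw.1, hw.2, hi⟩, ⟨z, hz.1, hz.2, hj⟩⟩
      · rintro _ rfl
        exact hz
  simp only [h1]
  have m1 : ∀ U : Set ℂ, IsOpen U → Measurable (fun S : DiscSet => ((S : Set ℂ) ∩ U).Nonempty) :=
    fun U hU => measurableSet_setOfPred.1 (measurableSet_inter hU)
  refine Measurable.and (m1 _ (isOpen_bas n)) (Measurable.not ?_)
  refine Measurable.exists fun i => Measurable.exists fun j => Measurable.and (by fun_prop) ?_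
  exact Measurable.and (m1 _ ((isOpen_bas n).inter (isOpen_bas i)))
    (m1 _ ((isOpen_bas n).inter (isOpen_bas j)))

theorem measurable_pt (n : ℕ) : Measurable (pt n) := by
  refine measurable_of_isOpen (fun U hU => ?_)
  have h1 : pt n ⁻¹' U = {S : DiscSet | (val S n ∧ ((S : Set ℂ) ∩ (bas n ∩ U)).Nonempty) ∨
      (¬ val S n ∧ (0 : ℂ) ∈ U)} := by
    ext S
    simp only [mem_preimage, mem_ofPred_eq]
    by_cases h : val S n
    · simp only [h, true_and, not_true_eq_false, false_and, or_false]
      have h2 := pt_spec h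
      rw [← inter_assoc, h2]
      constructor
      · intro h3
        exact ⟨_, rfl, h3⟩
      · rintro ⟨_, rfl, h3⟩
        exact h3
    · simp [h, pt_of_not h]
  rw [h1]
  refine measurableSet_setOfPred.2 ?_
  refine Measurable.or (Measurable.and (measurable_val n) ?_) (Measurable.and
    (measurable_val n).not (by fun_prop))
  exact measurableSet_setOfPred.1 (measurableSet_inter ((isOpen_bas n).inter hU))

/-- quantification over the points of a measurable family of discrete sets -/
theorem measurable_exists_mem {α : Type*} [MeasurableSpace α] {f : α → DiscSet}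
    (hf : Measurable f) {p : α → ℂ → Prop} (hp : Measurable (fun q : α × ℂ => p q.1 q.2)) :
    Measurable (fun a => ∃ z ∈ f a, p a z) := by
  have h1 : ∀ a, (∃ z ∈ f a, p a z) ↔ ∃ n, val (f a) n ∧ p a (pt n (f a)) := by
    intro a
    constructor
    · rintro ⟨z, hz, hpz⟩
      obtain ⟨n, hn, rfl⟩ := exists_pt hz
      exact ⟨n, hn, hpz⟩
    · rintro ⟨n, hn, hp⟩
      exact ⟨_, pt_mem hn, hp⟩
  simp only [h1]
  refine Measurable.exists fun n => Measurable.and ((measurable_val n).comp hf) ?_
  exact hp.comp (measurable_id.prodMk ((measurable_pt n).comp hf))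

theorem measurable_forall_mem {α : Type*} [MeasurableSpace α] {f : α → DiscSet}
    (hf : Measurable f) {p : α → ℂ → Prop} (hp : Measurable (fun q : α × ℂ => p q.1 q.2)) :
    Measurable (fun a => ∀ z ∈ f a, p a z) := by
  have h1 : ∀ a, (∀ z ∈ f a, p a z) ↔ ¬ ∃ z ∈ f a, ¬ p a z := by
    intro a
    push Not
    rfl
  simp only [h1]
  exact (measurable_exists_mem hf hp.not).not

theorem measurable_mem {α : Type*} [MeasurableSpace α] {f : α → DiscSet}
    (hf : Measurable f) {g : α → ℂ} (hg : Measurable g) : Measurable (fun a => g a ∈ f a) := by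
  have h1 : ∀ a, g a ∈ f a ↔ ∃ z ∈ f a, z = g a := by
    intro a
    simp
  simp only [h1]
  refine measurable_exists_mem hf (p := fun a z => z = g a) ?_
  exact Measurable.eq measurable_snd (hg.comp measurable_fst)

/-! ### standard Borel -/

/-- the space of codes -/
def codes : Set (ℕ → ℂ × Bool) :=
  {z | ∀ R : ℕ, ∃ k, ∀ n, (z n).2 = true → ‖(z n).1‖ ≤ R → ∃ m, m ≤ k ∧ (z m).2 = true ∧
    (z m).1 = (z n).1}

theorem measurableSet_codes : MeasurableSet codes := by
  refine measurableSet_setOfPred.2 ?_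
  have e1 : ∀ n, Measurable (fun z : ℕ → ℂ × Bool => (z n).2 = true) := fun n =>
    Measurable.eq (measurable_snd.comp (measurable_pi_apply n)) measurable_const
  have e2 : ∀ n, Measurable (fun z : ℕ → ℂ × Bool => (z n).1) := fun n =>
    measurable_fst.comp (measurable_pi_apply n)
  refine Measurable.forall fun R => Measurable.exists fun k => Measurable.forall fun n =>
    Measurable.imp (e1 n) (Measurable.imp ?_ (Measurable.exists fun m =>
      Measurable.and (by fun_prop) (Measurable.and (e1 m) (Measurable.eq (e2 m) (e2 n)))))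
  exact measurableSet_setOfPred.1 (measurableSet_le (e2 n).norm measurable_const)

/-- decoding -/
def decode (z : codes) : DiscSet :=
  ofLocFin {w | ∃ n, (z.1 n).2 = true ∧ (z.1 n).1 = w} (by
    intro R
    obtain ⟨N, hN⟩ := exists_nat_ge R
    obtain ⟨k, hk⟩ := z.2 N
    refine Set.Finite.subset (((Finset.range (k + 1)).image (fun n => (z.1 n).1)).finite_toSet) ?_
    rintro w ⟨⟨n, hn, rfl⟩, hw⟩
    rw [mem_closedBall_zero_iff] at hw
    obtain ⟨m, hm, -, hm2⟩ := hk n hn (hw.trans hN)
    rw [← hm2]
    simp only [Finset.coe_image, Finset.coe_range, mem_image, mem_Iio]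
    exact ⟨m, by omega, rfl⟩)

open Classical in
theorem encode_mem (S : DiscSet) :
    (fun n => (pt n S, if val S n then true else false)) ∈ codes := by
  intro R
  have h1 := S.finite_inter R
  have h2 : ∀ z : ℂ, ∃ m, z ∈ (S : Set ℂ) ∩ Metric.closedBall 0 (R : ℝ) →
      val S m ∧ pt m S = z := by
    intro z
    by_cases hz : z ∈ (S : Set ℂ) ∩ Metric.closedBall 0 (R : ℝ)
    · obtain ⟨m, hm⟩ := exists_pt (S := S) hz.1
      exact ⟨m, fun _ => hm⟩
    · exact ⟨0, fun h => absurd h hz⟩
  choose mm hmm using h2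
  refine ⟨h1.toFinset.sup mm, fun n hn hnR => ?_⟩
  simp only at hn hnR ⊢
  have hv : val S n := by
    by_contra h
    simp [h] at hn
  have hmem : pt n S ∈ (S : Set ℂ) ∩ Metric.closedBall 0 (R : ℝ) :=
    ⟨pt_mem hv, by rw [mem_closedBall_zero_iff]; exact hnR⟩
  obtain ⟨h3, h4⟩ := hmm _ hmem
  refine ⟨mm (pt n S), Finset.le_sup (f := mm) (h1.mem_toFinset.2 hmem), ?_, h4⟩
  simp [h3]

open Classical in
/-- encoding -/
noncomputable def encode (S : DiscSet) : codes :=
  ⟨fun n => (pt n S, if val S n then true else false), encode_mem S⟩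

theorem decode_encode (S : DiscSet) : decode (encode S) = S := by
  classical
  apply ext_set
  ext w
  simp only [decode, encode, coe_ofLocFin, mem_ofPred_eq]
  constructor
  · rintro ⟨n, hn, rfl⟩
    have hv : val S n := by
      by_contra h
      simp [h] at hn
    exact pt_mem hv
  · intro hw
    obtain ⟨n, hn, rfl⟩ := exists_pt (S := S) hw
    exact ⟨n, by simp [hn], rfl⟩

theorem measurable_decode : Measurable decode := by
  refine measurable_of_inter (fun U hU => ?_)
  have h1 : {z : codes | ((decode z : Set ℂ) ∩ U).Nonempty} =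
      {z : codes | ∃ n, (z.1 n).2 = true ∧ (z.1 n).1 ∈ U} := by
    ext z
    simp only [mem_ofPred_eq, decode, coe_ofLocFin]
    constructor
    · rintro ⟨_, ⟨n, hn, rfl⟩, h⟩
      exact ⟨n, hn, h⟩
    · rintro ⟨n, hn, h⟩
      exact ⟨_, ⟨n, hn, rfl⟩, h⟩
  rw [h1]
  refine measurableSet_setOfPred.2 (Measurable.exists fun n => Measurable.and ?_ ?_)
  · exact Measurable.eq (measurable_snd.comp ((measurable_pi_apply n).comp measurable_subtype_coe))
      measurable_const
  · exact measurableSet_setOfPred.1
      ((measurable_fst.comp ((measurable_pi_apply n).comp measurable_subtype_coe)) hU.measurableSet)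

theorem measurable_encode : Measurable encode := by
  classical
  refine Measurable.subtype_mk ?_
  refine measurable_pi_lambda _ (fun n => ?_)
  refine (measurable_pt n).prodMk ?_
  exact Measurable.ite (measurableSet_setOfPred.2 (measurable_val n)) measurable_const
    measurable_const

instance : StandardBorelSpace codes := measurableSet_codes.standardBorel

theorem measurableSet_range_encode : MeasurableSet (range encode) := by
  have h1 : range encode = {z | encode (decode z) = z} := by
    ext z
    constructor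
    · rintro ⟨S, rfl⟩
      simp only [mem_ofPred_eq]
      rw [decode_encode]
    · intro h
      exact ⟨decode z, h⟩
  rw [h1]
  exact measurableSet_eq_fun (measurable_encode.comp measurable_decode) measurable_id

theorem standardBorel_of_equiv {α β : Type} [MeasurableSpace α] [MeasurableSpace β]
    [StandardBorelSpace β] (e : α ≃ᵐ β) : StandardBorelSpace α := by
  let t : TopologicalSpace β := (upgradeStandardBorel β).toTopologicalSpace
  have hp : PolishSpace β := (upgradeStandardBorel β).toPolishSpace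
  refine ⟨⟨TopologicalSpace.induced e t, ?_, e.toEquiv.polishSpace_induced⟩⟩
  refine @BorelSpace.mk _ (_) _ ?_
  rw [borel_comap, ← eq_borel_upgradeStandardBorel β, e.measurableEmbedding.comap_eq]

instance instStandardBorel : StandardBorelSpace DiscSet := by
  have : StandardBorelSpace (range encode) := measurableSet_range_encode.standardBorel
  let e : DiscSet ≃ᵐ range encode :=
    { toFun := fun S => ⟨encode S, mem_range_self S⟩
      invFun := fun z => decode z.1
      left_inv := fun S => decode_encode S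
      right_inv := by
        rintro ⟨_, S, rfl⟩
        simp only [decode_encode]
      measurable_toFun := measurable_encode.subtype_mk
      measurable_invFun := measurable_decode.comp measurable_subtype_coe }
  exact standardBorel_of_equiv e

end DiscSet

end Pool.Agent.MPab4ef0
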